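import Pool.Agent.H709Q.Assem

/-! Closed orbits which persist under rotation: geometry of a single closed orbit. -/

open Real Set MeasureTheory Topology Filter
open scoped ENNReal

namespace Pool.Agent.H709P

open Pool.Agent.H709Q
open Pool.Agent.H709R2 (wedge ClosedOrbit)

/-- points strictly to the left of all tangents -/
def Inn (X : QF) (γ : ℝ → ℝ × ℝ) : Set (ℝ × ℝ) := {z | ∀ t, 0 < wedge (X.f (γ t)) (z - γ t)}

/-- points strictly to the right of some tangent -/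
def Out (X : QF) (γ : ℝ → ℝ × ℝ) : Set (ℝ × ℝ) := {z | ∃ t, wedge (X.f (γ t)) (z - γ t) < 0}

lemma Cyc.cont {X : QF} {γ : ℝ → ℝ × ℝ} {T : ℝ} (h : Cyc X γ T) : Continuous γ :=
  continuous_iff_continuousAt.2 fun t => (h.ode t).continuousAt

lemma isOpen_Out (X : QF) (γ : ℝ → ℝ × ℝ) : IsOpen (Out X γ) := by
  have : Out X γ = ⋃ t, {z | wedge (X.f (γ t)) (z - γ t) < 0} := by
    ext z
    simp [Out]
  rw [this]
  refine isOpen_iUnion fun t => isOpen_lt ?_ continuous_const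
  unfold wedge
  fun_prop

lemma isOpen_Inn {X : QF} {γ : ℝ → ℝ × ℝ} {T : ℝ} (h : Cyc X γ T) : IsOpen (Inn X γ) := by
  rw [isOpen_iff_mem_nhds]
  intro z hz
  have hc : Continuous fun q : (ℝ × ℝ) × ℝ => wedge (X.f (γ q.2)) (q.1 - γ q.2) := by
    have h1 : Continuous fun q : (ℝ × ℝ) × ℝ => X.f (γ q.2) :=
      X.continuous_f.comp ((Cyc.cont h).comp continuous_snd)
    have h2 : Continuous fun q : (ℝ × ℝ) × ℝ => γ q.2 := (Cyc.cont h).comp continuous_snd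
    unfold wedge
    exact ((continuous_fst.comp h1).mul (continuous_snd.comp (continuous_fst.sub h2))).sub
      ((continuous_snd.comp h1).mul (continuous_fst.comp (continuous_fst.sub h2)))
  have key : ∀ᶠ w in 𝓝 z, ∀ t ∈ Icc (0:ℝ) T, 0 < wedge (X.f (γ t)) (w - γ t) := by
    apply isCompact_Icc.eventually_forall_of_forall_eventually
    intro t ht
    exact hc.continuousAt.eventually (lt_mem_nhds (hz t))
  filter_upwards [key] with w hw
  intro t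
  have hp : Function.Periodic γ T := h.per
  obtain ⟨y, hy, hty⟩ := hp.exists_mem_Ico₀ h.pos t
  rw [hty]
  exact hw y ⟨hy.1, hy.2.le⟩

lemma trich {X : QF} {γ : ℝ → ℝ × ℝ} {T : ℝ} (h : Cyc X γ T) (hW : CCW X γ) {z : ℝ × ℝ}
    (hz : z ∉ range γ) : z ∈ Inn X γ ∨ z ∈ Out X γ := by
  by_contra hcon
  rw [not_or] at hcon
  obtain ⟨h1, h2⟩ := hcon
  simp only [Inn, Out, mem_ofPred_eq, not_forall, not_exists, not_lt] at h1 h2
  obtain ⟨t₀, ht₀⟩ := h1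
  have h0 : wedge (X.f (γ t₀)) (z - γ t₀) = 0 := le_antisymm ht₀ (h2 t₀)
  have hmin : IsLocalMin (fun t => wedge (X.f (γ t)) (z - γ t)) t₀ :=
    Filter.Eventually.of_forall fun t => by simp only [h0]; exact h2 t
  have hf := X.hasDerivAt_f (h.ode t₀)
  have a1 := T12a.fstD hf
  have a2 := T12a.sndD hf
  have b1 := T12a.fstD (h.ode t₀)
  have b2 := T12a.sndD (h.ode t₀)
  have hd := (a1.mul (b2.const_sub z.2)).sub (a2.mul (b1.const_sub z.1))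
  have hd0 := hmin.hasDerivAt_eq_zero (f' := _) hd
  obtain ⟨c, hc⟩ := par (h.ne t₀) h0
  have hz1 : z.1 - (γ t₀).1 = c * (X.f (γ t₀)).1 := congrArg Prod.fst hc
  have hz2 : z.2 - (γ t₀).2 = c * (X.f (γ t₀)).2 := congrArg Prod.snd hc
  have hcurv := hW.curv t₀
  unfold QF.curv wedge at hcurv
  rw [hz1, hz2] at hd0
  have hc0 : c * ((X.f (γ t₀)).1 * (X.D (γ t₀) (X.f (γ t₀))).2 -
      (X.f (γ t₀)).2 * (X.D (γ t₀) (X.f (γ t₀))).1) = 0 := by
    linear_combination (-1 : ℝ) * hd0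
  have hc1 : c = 0 := (mul_eq_zero.1 hc0).resolve_right hcurv.ne'
  apply hz
  refine ⟨t₀, ?_⟩
  rw [hc1, zero_smul] at hc
  exact (sub_eq_zero.1 hc).symm

lemma disj_IO (X : QF) (γ : ℝ → ℝ × ℝ) : Disjoint (Inn X γ) (Out X γ) := by
  rw [Set.disjoint_left]
  rintro z h1 ⟨t, h2⟩
  exact absurd (h1 t) (not_lt.2 h2.le)

lemma side {X : QF} {γ : ℝ → ℝ × ℝ} {T : ℝ} (h : Cyc X γ T) (hW : CCW X γ) {S : Set (ℝ × ℝ)}
    (hS : IsPreconnected S) (hd : Disjoint S (range γ)) : S ⊆ Inn X γ ∨ S ⊆ Out X γ := by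
  refine hS.subset_or_subset (isOpen_Inn h) (isOpen_Out X γ) (disj_IO X γ) ?_
  intro z hz
  exact trich h hW (Set.disjoint_left.1 hd hz)

lemma ray_in {X : QF} {γ : ℝ → ℝ × ℝ} {p : ℝ × ℝ} (hW : CCW X γ) (hA : Around X p γ)
    {u : ℝ × ℝ} {r r' : ℝ} (hr : 0 < r) (hm : p + r • u ∈ range γ) (h0 : 0 ≤ r') (hlt : r' < r) :
    p + r' • u ∈ Inn X γ := by
  obtain ⟨t₀, ht₀⟩ := hm
  intro t
  have h1 := hA t
  have h2 := hW.nonneg t t₀
  rw [ht₀] at h2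
  unfold wedge at h1 h2 ⊢
  simp only [Prod.fst_sub, Prod.snd_sub, Prod.fst_add, Prod.snd_add, Prod.smul_fst, Prod.smul_snd,
    smul_eq_mul] at h1 h2 ⊢
  have h3 : r * ((X.f (γ t)).1 * (p.2 + r' * u.2 - (γ t).2) -
      (X.f (γ t)).2 * (p.1 + r' * u.1 - (γ t).1)) =
      (r - r') * (((γ t).1 - p.1) * (X.f (γ t)).2 - ((γ t).2 - p.2) * (X.f (γ t)).1) +
      r' * ((X.f (γ t)).1 * (p.2 + r * u.2 - (γ t).2) -
        (X.f (γ t)).2 * (p.1 + r * u.1 - (γ t).1)) := by ring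
  have h4 : 0 < r * ((X.f (γ t)).1 * (p.2 + r' * u.2 - (γ t).2) -
      (X.f (γ t)).2 * (p.1 + r' * u.1 - (γ t).1)) := by
    rw [h3]
    have := mul_pos (sub_pos.2 hlt) h1
    have := mul_nonneg h0 h2
    linarith
  exact (mul_pos_iff_of_pos_left hr).1 h4

lemma ray_out {X : QF} {γ : ℝ → ℝ × ℝ} {p : ℝ × ℝ} (hA : Around X p γ)
    {u : ℝ × ℝ} {r r' : ℝ} (hr : 0 < r) (hm : p + r • u ∈ range γ) (hlt : r < r') :
    p + r' • u ∈ Out X γ := by
  obtain ⟨t₀, ht₀⟩ := hm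
  refine ⟨t₀, ?_⟩
  have h1 := hA t₀
  rw [ht₀] at h1 ⊢
  unfold wedge at h1 ⊢
  simp only [Prod.fst_sub, Prod.snd_sub, Prod.fst_add, Prod.snd_add, Prod.smul_fst, Prod.smul_snd,
    smul_eq_mul] at h1 ⊢
  set F := X.f (p + r • u)
  have h3 : r * (F.1 * (p.2 + r' * u.2 - (p.2 + r * u.2)) -
      F.2 * (p.1 + r' * u.1 - (p.1 + r * u.1))) =
      -((r' - r) * ((p.1 + r * u.1 - p.1) * F.2 - (p.2 + r * u.2 - p.2) * F.1)) := by ring
  have h4 := mul_pos (sub_pos.2 hlt) h1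
  have h5 : r * (F.1 * (p.2 + r' * u.2 - (p.2 + r * u.2)) -
      F.2 * (p.1 + r' * u.1 - (p.1 + r * u.1))) < 0 := by rw [h3]; linarith
  exact (mul_neg_iff.1 h5).resolve_right (fun h => absurd hr (not_lt.2 h.1.le)) |>.2

/-- not between -/
def NB (a b c : ℝ) : Prop := (c < a ∧ c < b) ∨ (a < c ∧ b < c)

lemma comb {x x' m S : ℝ} (hne : x ≠ x') (h1 : NB x m x') (h2 : NB x' m x) (h3 : NB x m S)
    (h4 : NB x' m S) (h5 : NB m S x) (h6 : NB m S x') : False := by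
  unfold NB at *
  rcases lt_or_gt_of_ne hne with h | h <;> rcases h1 with h1 | h1 <;> rcases h2 with h2 | h2 <;>
    rcases h3 with h3 | h3 <;> rcases h4 with h4 | h4 <;> rcases h5 with h5 | h5 <;>
    rcases h6 with h6 | h6 <;> linarith [h1.1, h1.2, h2.1, h2.2, h3.1, h3.2, h4.1, h4.2, h5.1,
      h5.2, h6.1, h6.2]

/-- separation -/
lemma sep {X X₁ X₂ : QF} {p u : ℝ × ℝ} {C C₁ C₂ S : Set (ℝ × ℝ)} {r r₁ r₂ : ℝ}
    (hC : C ∈ Orb X p) (h1 : C₁ ∈ Orb X₁ p) (h2 : C₂ ∈ Orb X₂ p)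
    (hr : 0 < r) (hr1 : 0 < r₁) (hr2 : 0 < r₂)
    (m : p + r • u ∈ C) (m1 : p + r₁ • u ∈ C₁) (m2 : p + r₂ • u ∈ C₂)
    (d1 : Disjoint C₁ C) (d2 : Disjoint C₂ C) (hS : IsPreconnected S) (dS : Disjoint S C)
    (s1 : (S ∩ C₁).Nonempty) (s2 : (S ∩ C₂).Nonempty) : NB r₁ r₂ r := by
  obtain ⟨γ, T, hc, hA, rfl⟩ := hC
  obtain ⟨γ₁, T₁, hc1, hA1, rfl⟩ := h1
  obtain ⟨γ₂, T₂, hc2, hA2, rfl⟩ := h2
  have hW := ccwOfAround' X γ T p hc hA
  have key : ∀ (η : ℝ → ℝ × ℝ) (ρ : ℝ), Continuous η → 0 < ρ → p + ρ • u ∈ range η →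
      Disjoint (range η) (range γ) → (ρ < r ∧ range η ⊆ Inn X γ) ∨ (r < ρ ∧ range η ⊆ Out X γ) := by
    intro η ρ hη hρ hm hd
    rcases lt_trichotomy ρ r with h | h | h
    · left
      refine ⟨h, ?_⟩
      rcases side hc hW (isPreconnected_range hη) hd with h' | h'
      · exact h'
      · exact absurd (h' hm) (Set.disjoint_left.1 (disj_IO X γ) (ray_in hW hA hr m hρ.le h))
    · subst h
      exact absurd m (Set.disjoint_left.1 hd hm)
    · right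
      refine ⟨h, ?_⟩
      rcases side hc hW (isPreconnected_range hη) hd with h' | h'
      · exact absurd (ray_out hA hr m h) (Set.disjoint_left.1 (disj_IO X γ) (h' hm))
      · exact h'
  obtain ⟨z1, hz1S, hz1⟩ := s1
  obtain ⟨z2, hz2S, hz2⟩ := s2
  unfold NB
  rcases key γ₁ r₁ (Cyc.cont hc1) hr1 m1 d1 with ⟨a1, b1⟩ | ⟨a1, b1⟩ <;>
    rcases key γ₂ r₂ (Cyc.cont hc2) hr2 m2 d2 with ⟨a2, b2⟩ | ⟨a2, b2⟩
  · exact Or.inr ⟨a1, a2⟩
  · exfalso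
    rcases side hc hW hS dS with h | h
    · exact Set.disjoint_left.1 (disj_IO X γ) (h hz2S) (b2 hz2)
    · exact Set.disjoint_left.1 (disj_IO X γ) (b1 hz1) (h hz1S)
  · exfalso
    rcases side hc hW hS dS with h | h
    · exact Set.disjoint_left.1 (disj_IO X γ) (h hz1S) (b1 hz1)
    · exact Set.disjoint_left.1 (disj_IO X γ) (b2 hz2) (h hz2S)
  · exact Or.inl ⟨a1, a2⟩

end Pool.Agent.H709P
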