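import Pool.Agent.H709P.A

/-! Closed orbits which persist under rotation: families. -/

open Real Set MeasureTheory Topology Filter
open scoped ENNReal

namespace Pool.Agent.H709P

open Pool.Agent.H709Q
open Pool.Agent.H709R2 (wedge ClosedOrbit)

/-- two closed orbits with a common point coincide -/
lemma orbits_eq {X : QF} {γ γ' : ℝ → ℝ × ℝ} {T T' : ℝ} (h : Cyc X γ T) (h' : Cyc X γ' T')
    {s s' : ℝ} (hs : γ s = γ' s') : range γ = range γ' := by
  have hp : Function.Periodic γ T := h.per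
  have hp' : Function.Periodic γ' T' := h'.per
  have hcomp : IsCompact (range γ ∪ range γ') :=
    (hp.compact_of_continuous h.pos.ne' (Cyc.cont h)).union
      (hp'.compact_of_continuous h'.pos.ne' (Cyc.cont h'))
  obtain ⟨R, hR⟩ := hcomp.isBounded.exists_norm_le
  obtain ⟨Y, hY, ⟨K, hK⟩, ⟨M, hM⟩, hYF⟩ :=
    H709R2.exists_cutoff (F := X.f) (X.contDiff_f (m := 2)) R
  obtain ⟨φ, hφ⟩ := H709R2.exists_rotFlow hY hK hM
  have hrot : ∀ v : ℝ × ℝ, H709R2.rot 0 v = v := by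
    intro v; unfold H709R2.rot; ext <;> simp
  have e1 : ∀ t, HasDerivAt (fun t => γ (t + s)) (H709R2.rot 0 (Y (γ (t + s)))) t := by
    intro t
    rw [hrot, (hYF (γ (t + s)) (hR _ (Or.inl ⟨t + s, rfl⟩))).eq_of_nhds]
    exact (h.ode (t + s)).comp_add_const t s
  have e2 : ∀ t, HasDerivAt (fun t => γ' (t + s')) (H709R2.rot 0 (Y (γ' (t + s')))) t := by
    intro t
    rw [hrot, (hYF (γ' (t + s')) (hR _ (Or.inr ⟨t + s', rfl⟩))).eq_of_nhds]
    exact (h'.ode (t + s')).comp_add_const t s'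
  have u1 := hφ.uniq 0 _ e1
  have u2 := hφ.uniq 0 _ e2
  have key : ∀ t, γ (t + s) = γ' (t + s') := by
    intro t
    have a := u1 t
    have b := u2 t
    simp only [zero_add] at a b
    rw [a, b, hs]
  ext z
  constructor
  · rintro ⟨t, rfl⟩
    exact ⟨t - s + s', by rw [← key]; congr 1; ring⟩
  · rintro ⟨t, rfl⟩
    exact ⟨t - s' + s, by rw [key]; congr 1; ring⟩

lemma orb_eq {X : QF} {p p' : ℝ × ℝ} {C C' : Set (ℝ × ℝ)} (h : C ∈ Orb X p) (h' : C' ∈ Orb X p')
    {z : ℝ × ℝ} (hz : z ∈ C) (hz' : z ∈ C') : C = C' := by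
  obtain ⟨γ, T, hc, -, rfl⟩ := h
  obtain ⟨γ', T', hc', -, rfl⟩ := h'
  obtain ⟨s, hs⟩ := hz
  obtain ⟨s', hs'⟩ := hz'
  exact orbits_eq hc hc' (hs.trans hs'.symm)

/-- Duff's non-intersection property -/
lemma duff {X : QF} {a c : ℝ} (hac : a ≠ c) (hlt : |c - a| < π) {p p' : ℝ × ℝ}
    {C C' : Set (ℝ × ℝ)} (h : C ∈ Orb (X.rot a) p) (h' : C' ∈ Orb (X.rot c) p') :
    Disjoint C C' := by
  obtain ⟨γ, T, hc, -, rfl⟩ := h
  obtain ⟨γ', T', hc', -, rfl⟩ := h'
  rw [Set.disjoint_left]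
  rintro _ ⟨s, rfl⟩ ⟨s', hs'⟩
  have hsin : Real.sin (c - a) ≠ 0 := by
    rw [abs_lt] at hlt
    rcases lt_or_gt_of_ne hac with h1 | h1
    · exact (Real.sin_pos_of_pos_of_lt_pi (by linarith) hlt.2).ne'
    · exact (Real.sin_neg_of_neg_of_neg_pi_lt (by linarith) hlt.1).ne
  refine H709R2.no_meeting (X := X.f) X.continuous_f hsin (γ := fun t => γ (t + s))
    (η := fun t => γ' (t + s')) hc.pos hc'.pos ?_ ?_ ?_ ?_ ?_ ?_
  · intro t
    have := (hc.ode (t + s)).comp_add_const t s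
    rw [QF.f_rot] at this
    exact this
  · intro t
    have := (hc'.ode (t + s')).comp_add_const t s'
    rw [QF.f_rot] at this
    exact this
  · show γ (T + s) = γ (0 + s)
    rw [zero_add, add_comm T s, hc.per]
  · show γ' (T' + s') = γ' (0 + s')
    rw [zero_add, add_comm T' s', hc'.per]
  · intro t h0
    apply hc.ne (t + s)
    rw [QF.f_rot, h0]
    unfold H709R2.rot
    ext <;> simp
  · show γ (0 + s) = γ' (0 + s')
    rw [zero_add, zero_add, hs']

/-- interior points of the convex hull are surrounded -/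
lemma inside_around {X : QF} {γ : ℝ → ℝ × ℝ} {T : ℝ} (h : Cyc X γ T) (hW : CCW X γ) {p : ℝ × ℝ}
    (hp : p ∈ interior (convexHull ℝ (range γ))) : Around X p γ := by
  intro s
  have hsub : convexHull ℝ (range γ) ⊆ {z | 0 ≤ wedge (X.f (γ s)) (z - γ s)} := by
    refine convexHull_min ?_ ?_
    · rintro _ ⟨t, rfl⟩
      exact hW.nonneg s t
    · intro z hz w hw a b ha hb hab
      simp only [mem_ofPred_eq] at hz hw ⊢
      unfold wedge at hz hw ⊢
      simp only [Prod.fst_sub, Prod.snd_sub, Prod.fst_add, Prod.snd_add, Prod.smul_fst,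
        Prod.smul_snd, smul_eq_mul] at hz hw ⊢
      have hb' : b = 1 - a := by linarith
      have := add_nonneg (mul_nonneg ha hz) (mul_nonneg hb hw)
      subst hb'
      nlinarith [this]
  have hp' : p ∈ interior {z | 0 ≤ wedge (X.f (γ s)) (z - γ s)} := interior_mono hsub hp
  by_contra hcon
  rw [not_lt] at hcon
  set F := X.f (γ s) with hF
  have hFne : F ≠ 0 := h.ne s
  have hFF : 0 < F.1 ^ 2 + F.2 ^ 2 := by
    rcases (not_and_or.1 fun hh : F.1 = 0 ∧ F.2 = 0 => hFne (Prod.ext hh.1 hh.2)) with h1 | h1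
    · have := sq_nonneg F.2
      have := pow_pos (abs_pos.2 h1) 2
      rw [sq_abs] at this
      linarith
    · have := sq_nonneg F.1
      have := pow_pos (abs_pos.2 h1) 2
      rw [sq_abs] at this
      linarith
  have hcont : ContinuousAt (fun t : ℝ => p - t • ((-F.2, F.1) : ℝ × ℝ)) 0 := by fun_prop
  have hev : ∀ᶠ t : ℝ in 𝓝 0, p - t • ((-F.2, F.1) : ℝ × ℝ) ∈
      {z | 0 ≤ wedge F (z - γ s)} := by
    apply hcont.eventually
    have e : (fun t : ℝ => p - t • ((-F.2, F.1) : ℝ × ℝ)) 0 = p := by simp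
    rw [e]
    exact mem_interior_iff_mem_nhds.1 hp'
  obtain ⟨t, ht, ht0⟩ := ((hev.filter_mono (nhdsWithin_le_nhds (s := Ioi 0))).and
    self_mem_nhdsWithin).exists
  simp only [mem_ofPred_eq, mem_Ioi] at ht ht0
  unfold wedge at hcon ht
  simp only [Prod.fst_sub, Prod.snd_sub, Prod.smul_fst, Prod.smul_snd, smul_eq_mul] at hcon ht
  nlinarith [mul_pos ht0 hFF]

/-- a closed orbit surrounds at most one zero -/
lemma two_zero {X : QF} {γ : ℝ → ℝ × ℝ} {T : ℝ} {p p' : ℝ × ℝ} (h : Cyc X γ T)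
    (hA : Around X p γ) (hA' : Around X p' γ) (h0 : X.f p = 0) (h0' : X.f p' = 0) : p = p' := by
  by_contra hne
  set v := p' - p with hv
  have hv0 : v ≠ 0 := sub_ne_zero.2 (Ne.symm hne)
  have hp' : p' = p + v := by rw [hv]; abel
  obtain ⟨A, B, C, A', B', C', hl⟩ := T5_line X p v
  have e0 := hl 0
  rw [zero_smul, add_zero, h0] at e0
  have e1 := hl 1
  rw [one_smul, ← hp', h0'] at e1
  simp only [Prod.ext_iff, Prod.fst_zero, Prod.snd_zero] at e0 e1
  have hA0 : A = 0 := by linarith [e0.1]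
  have hA0' : A' = 0 := by linarith [e0.2]
  have hB : B = -C := by linarith [e1.1]
  have hB' : B' = -C' := by linarith [e1.2]
  obtain ⟨s, r, hr, hs⟩ := rays X γ T p h hA v hv0
  obtain ⟨s', r', hr', hs'⟩ := rays X γ T p h hA (-v) (neg_ne_zero.2 hv0)
  have hs'' : γ s' = p + (-r') • v := by rw [hs', smul_neg, neg_smul]
  have a1 := hA s
  have a2 := hA s'
  have a3 := hA' s
  rw [hs, hl r] at a1 a3
  rw [hs'', hl (-r')] at a2
  rw [hp'] at a3
  unfold wedge at a1 a2 a3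
  simp only [Prod.fst_sub, Prod.snd_sub, Prod.fst_add, Prod.snd_add, Prod.smul_fst, Prod.smul_snd,
    smul_eq_mul, hA0, hA0', hB, hB'] at a1 a2 a3
  set κ := v.1 * C' - v.2 * C with hκ
  have b1 : 0 < r * (r * (r - 1)) * κ := by rw [hκ]; linarith
  have b2 : 0 < (-r') * ((-r') * (-r' - 1)) * κ := by rw [hκ]; linarith
  have b3 : 0 < (r - 1) * (r * (r - 1)) * κ := by rw [hκ]; linarith
  have c2 : κ < 0 := by
    by_contra hk
    rw [not_lt] at hk
    have : 0 ≤ r' ^ 2 * (r' + 1) * κ := by positivity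
    nlinarith [this, b2]
  have c3 : 0 ≤ (r - 1) ^ 2 * r * (-κ) := by
    have : 0 ≤ -κ := by linarith
    positivity
  nlinarith [b3, c3]

end Pool.Agent.H709P
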