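import Pool.Agent.H709P.B

/-! Closed orbits which persist under rotation: non-merging and counting. -/

open Real Set MeasureTheory Topology Filter
open scoped ENNReal

namespace Pool.Agent.H709P

open Pool.Agent.H709Q
open Pool.Agent.H709R2 (wedge ClosedOrbit)

/-- a family of closed orbits around `p` of the rotated fields, with a continuous choice of
points -/
structure Fam (X : QF) (p : ℝ × ℝ) (η : ℝ) (D : ℝ → Set (ℝ × ℝ)) (q : ℝ → ℝ × ℝ) : Prop where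
  orb : ∀ a ∈ uIcc 0 η, D a ∈ Orb (X.rot a) p
  mem : ∀ a ∈ uIcc 0 η, q a ∈ D a
  cont : ContinuousOn q (uIcc 0 η)

lemma exists_ray {X : QF} {p : ℝ × ℝ} {C : Set (ℝ × ℝ)} (h : C ∈ Orb X p) :
    ∃ r : ℝ, 0 < r ∧ p + r • ((1, 0) : ℝ × ℝ) ∈ C := by
  obtain ⟨γ, T, hc, hA, rfl⟩ := h
  obtain ⟨t, r, hr, ht⟩ := rays X γ T p hc hA (1, 0) (by simp)
  exact ⟨r, hr, t, ht⟩

lemma Fam.nb {X : QF} {p : ℝ × ℝ} {η : ℝ} {D : ℝ → Set (ℝ × ℝ)} {q : ℝ → ℝ × ℝ}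
    (F : Fam X p η D q) {a b : ℝ} (ha : a ∈ uIcc 0 η) (hb : b ∈ uIcc 0 η) {Y : QF}
    {K : Set (ℝ × ℝ)} (hK : K ∈ Orb Y p) {r₁ r₂ r : ℝ} (h1 : 0 < r₁) (h2 : 0 < r₂) (hr : 0 < r)
    (m1 : p + r₁ • ((1, 0) : ℝ × ℝ) ∈ D a) (m2 : p + r₂ • ((1, 0) : ℝ × ℝ) ∈ D b)
    (m : p + r • ((1, 0) : ℝ × ℝ) ∈ K) (hd : ∀ x ∈ uIcc a b, Disjoint (D x) K) :
    NB r₁ r₂ r := by
  have hsub : uIcc a b ⊆ uIcc 0 η := uIcc_subset_uIcc ha hb
  refine sep hK (F.orb a ha) (F.orb b hb) hr h1 h2 m m1 m2 (hd a left_mem_uIcc)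
    (hd b right_mem_uIcc) (S := q '' uIcc a b) ?_ ?_ ⟨q a, ⟨a, left_mem_uIcc, rfl⟩, F.mem a ha⟩
    ⟨q b, ⟨b, right_mem_uIcc, rfl⟩, F.mem b hb⟩
  · exact isPreconnected_uIcc.image q (F.cont.mono hsub)
  · rw [Set.disjoint_left]
    rintro _ ⟨x, hx, rfl⟩ hxK
    exact Set.disjoint_left.1 (hd x hx) (F.mem x (hsub hx)) hxK

/-- two persistent families around the same point do not merge -/
theorem nonmerge {X : QF} {p : ℝ × ℝ} {η : ℝ} {D D' : ℝ → Set (ℝ × ℝ)} {q q' : ℝ → ℝ × ℝ}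
    (F : Fam X p η D q) (F' : Fam X p η D' q') (hη : |η| < π) {b : ℝ} (hb : b ∈ uIcc 0 η)
    (hb0 : b ≠ 0) (hbη : b ≠ η) (hne : D 0 ≠ D' 0) : D b ≠ D' b := by
  intro he
  have l0 : (0:ℝ) ∈ uIcc 0 η := left_mem_uIcc
  have lη : η ∈ uIcc 0 η := right_mem_uIcc
  obtain ⟨x, hx, mx⟩ := exists_ray (F.orb 0 l0)
  obtain ⟨x', hx', mx'⟩ := exists_ray (F'.orb 0 l0)
  obtain ⟨m, hm, mm⟩ := exists_ray (F.orb b hb)
  obtain ⟨S, hS, mS⟩ := exists_ray (F.orb η lη)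
  have mm' : p + m • ((1, 0) : ℝ × ℝ) ∈ D' b := he ▸ mm
  have d00 : Disjoint (D 0) (D' 0) := by
    rw [Set.disjoint_left]
    intro z hz hz'
    exact hne (orb_eq (F.orb 0 l0) (F'.orb 0 l0) hz hz')
  have hxx : x ≠ x' := by
    rintro rfl
    exact Set.disjoint_left.1 d00 mx mx'
  have dist : ∀ a ∈ uIcc 0 η, ∀ c ∈ uIcc 0 η, |c - a| < π := by
    intro a ha c hc
    have := abs_sub_le_of_uIcc_subset_uIcc (uIcc_subset_uIcc ha hc)
    rw [sub_zero] at this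
    linarith
  have s0b : uIcc 0 b ⊆ uIcc 0 η := uIcc_subset_uIcc l0 hb
  have sbη : uIcc b η ⊆ uIcc 0 η := uIcc_subset_uIcc hb lη
  have n0b : ∀ y ∈ uIcc 0 b, y ≠ η := by
    rintro y hy rfl
    exact hbη (eq_of_mem_uIcc_of_mem_uIcc (c := 0) (by rwa [uIcc_comm] at hb)
      (by rwa [uIcc_comm] at hy))
  have nbη : ∀ y ∈ uIcc b η, y ≠ 0 := by
    rintro y hy rfl
    exact hb0 (eq_of_mem_uIcc_of_mem_uIcc hb hy)
  refine comb hxx ?_ ?_ ?_ ?_ ?_ ?_ (x := x) (x' := x') (m := m) (S := S)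
  · refine F.nb l0 hb (F'.orb 0 l0) hx hm hx' mx mm mx' fun y hy => ?_
    by_cases h : y = 0
    · rw [h]; exact d00
    · exact duff h (dist y (s0b hy) 0 l0) (F.orb y (s0b hy)) (F'.orb 0 l0)
  · refine F'.nb l0 hb (F.orb 0 l0) hx' hm hx mx' mm' mx fun y hy => ?_
    by_cases h : y = 0
    · rw [h]; exact d00.symm
    · exact duff h (dist y (s0b hy) 0 l0) (F'.orb y (s0b hy)) (F.orb 0 l0)
  · exact F.nb l0 hb (F.orb η lη) hx hm hS mx mm mS fun y hy =>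
      duff (n0b y hy) (dist y (s0b hy) η lη) (F.orb y (s0b hy)) (F.orb η lη)
  · exact F'.nb l0 hb (F.orb η lη) hx' hm hS mx' mm' mS fun y hy =>
      duff (n0b y hy) (dist y (s0b hy) η lη) (F'.orb y (s0b hy)) (F.orb η lη)
  · exact F.nb hb lη (F.orb 0 l0) hm hS hx mm mS mx fun y hy =>
      duff (nbη y hy) (dist y (sbη hy) 0 l0) (F.orb y (sbη hy)) (F.orb 0 l0)
  · exact F.nb hb lη (F'.orb 0 l0) hm hS hx' mm mS mx' fun y hy =>
      duff (nbη y hy) (dist y (sbη hy) 0 l0) (F.orb y (sbη hy)) (F'.orb 0 l0)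

lemma rot_zero' (X : QF) : X.rot 0 = X := by
  cases X
  simp [QF.rot]

lemma rot_two_pi (X : QF) : (X.rot π).rot π = X := by
  rw [QF.rot_rot, show π + π = 2 * π by ring]
  cases X
  simp [QF.rot]

lemma rot_comm (X : QF) (a b : ℝ) : (X.rot a).rot b = (X.rot b).rot a := by
  rw [QF.rot_rot, QF.rot_rot, add_comm]

lemma Cyc.nonconst {X : QF} {γ : ℝ → ℝ × ℝ} {T : ℝ} (h : Cyc X γ T) : ∃ s t, γ s ≠ γ t := by
  by_contra hcon
  simp only [not_exists, not_not] at hcon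
  have h1 : γ = fun _ => γ 0 := funext fun t => hcon t 0
  have h2 := h.ode 0
  rw [h1] at h2
  exact h.ne 0 (by
    have := h2.unique (hasDerivAt_const (0:ℝ) (γ 0))
    simpa using this)

lemma Orb.closed {X : QF} {p : ℝ × ℝ} {C : Set (ℝ × ℝ)} (h : C ∈ Orb X p) :
    ClosedOrbit X.f C := by
  obtain ⟨γ, T, hc, -, rfl⟩ := h
  exact ⟨γ, T, hc.pos, hc.ode, hc.per, Cyc.nonconst hc, rfl⟩

lemma Orb.closed_rev {X : QF} {p : ℝ × ℝ} {C : Set (ℝ × ℝ)} (h : C ∈ Orb (X.rot π) p) :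
    ClosedOrbit X.f C := by
  obtain ⟨γ, T, hc, -, rfl⟩ := h
  have hc' := T13b_rev hc
  rw [rot_two_pi] at hc'
  exact ⟨_, T, hc'.pos, hc'.ode, hc'.per, Cyc.nonconst hc', (T13b_range γ).symm⟩

lemma orient {Y : QF} {D : Set (ℝ × ℝ)} (h : ClosedOrbit Y.f D) {p : ℝ × ℝ}
    (hp : p ∈ interior (convexHull ℝ D)) : D ∈ Orb Y p ∨ D ∈ Orb (Y.rot π) p := by
  obtain ⟨γ, T, hc, rfl⟩ := minimalPeriod Y D h
  rcases convexity' Y γ T hc with hW | hW
  · exact Or.inl ⟨γ, T, hc, inside_around hc hW hp, rfl⟩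
  · right
    rw [← T13b_range γ] at hp
    exact ⟨_, T, T13b_rev hc, inside_around (T13b_rev hc) hW hp, (T13b_range γ).symm⟩

lemma not_both {Y : QF} {p p' : ℝ × ℝ} {K : Set (ℝ × ℝ)} (h : K ∈ Orb Y p)
    (h' : K ∈ Orb (Y.rot π) p') : False := by
  obtain ⟨γ, T, hc, hA, rfl⟩ := h
  obtain ⟨γ', T', hc', hA', hK⟩ := h'
  have hW := ccwOfAround' Y γ T p hc hA
  have hW' := ccwOfAround' (Y.rot π) γ' T' p' hc' hA'
  obtain ⟨s, t, hst⟩ := Cyc.nonconst hc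
  have hs : γ s ∈ range γ' := hK ▸ ⟨s, rfl⟩
  have ht : γ t ∈ range γ' := hK ▸ ⟨t, rfl⟩
  obtain ⟨s', hs'⟩ := hs
  obtain ⟨t', ht'⟩ := ht
  have h1 := hW'.nonneg s' t'
  rw [hs', ht', QF.f_rot_pi] at h1
  have h2 := hW.nonneg s t
  have h3 : wedge (-Y.f (γ s)) (γ t - γ s) = -wedge (Y.f (γ s)) (γ t - γ s) := by
    unfold wedge
    simp only [Prod.fst_neg, Prod.snd_neg]
    ring
  rw [h3] at h1
  exact hst (hW.strict s t (le_antisymm (by linarith) h2)).symm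

lemma same_zero {Y : QF} {p p' : ℝ × ℝ} {K : Set (ℝ × ℝ)} (h : K ∈ Orb Y p)
    (h' : K ∈ Orb Y p') (h0 : Y.f p = 0) (h0' : Y.f p' = 0) : p = p' := by
  obtain ⟨γ, T, hc, hA, rfl⟩ := h
  obtain ⟨γ', T', hc', hA', hK⟩ := h'
  refine two_zero hc hA ?_ h0 h0'
  intro s
  have hs : γ s ∈ range γ' := hK ▸ ⟨s, rfl⟩
  obtain ⟨s', hs'⟩ := hs
  have := hA' s'
  rwa [hs'] at this

/-- the rotation of the linear part -/
lemma sign_pos {X : QF} {a : ℝ} {p : ℝ × ℝ} {K : Set (ℝ × ℝ)} (h : K ∈ Orb (X.rot a) p)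
    (h0 : X.f p = 0) : 0 < sin a * (X.D p (1, 0)).1 + cos a * (X.D p (1, 0)).2 := by
  obtain ⟨γ, T, hc, hA, rfl⟩ := h
  have h1 : (X.rot a).f p = 0 := by
    rw [QF.f_rot, h0]
    unfold H709R2.rot
    ext <;> simp
  have h2 := linPos' (X.rot a) γ T p hc h1 hA (1, 0) (by simp)
  rw [QF.D_rot] at h2
  unfold wedge H709R2.rot at h2
  simpa using h2

lemma sign_neg {X : QF} {a : ℝ} {p : ℝ × ℝ} {K : Set (ℝ × ℝ)} (h : K ∈ Orb ((X.rot π).rot a) p)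
    (h0 : X.f p = 0) : sin a * (X.D p (1, 0)).1 + cos a * (X.D p (1, 0)).2 < 0 := by
  rw [QF.rot_rot] at h
  have := sign_pos h h0
  rw [add_comm π a, Real.sin_add_pi, Real.cos_add_pi] at this
  linarith

/-- orientation is constant along a family -/
lemma raw_fam {X : QF} {p : ℝ × ℝ} {η : ℝ} {q : ℝ → ℝ × ℝ} (hp : X.f p = 0)
    (hq : ContinuousOn q (uIcc 0 η))
    (h : ∀ a ∈ uIcc 0 η, ∃ D, ClosedOrbit (X.rot a).f D ∧ q a ∈ D ∧
      p ∈ interior (convexHull ℝ D)) :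
    (∃ D, Fam X p η D q) ∨ (∃ D, Fam (X.rot π) p η D q) := by
  set g : ℝ → ℝ := fun a => sin a * (X.D p (1, 0)).1 + cos a * (X.D p (1, 0)).2 with hg
  have hgc : Continuous g := by
    rw [hg]
    fun_prop
  have h1 : ∀ a ∈ uIcc 0 η, (∃ D ∈ Orb (X.rot a) p, q a ∈ D) ∨
      ∃ D ∈ Orb ((X.rot π).rot a) p, q a ∈ D := by
    intro a ha
    obtain ⟨D, hD, hqD, hpD⟩ := h a ha
    rcases orient hD hpD with h2 | h2
    · exact Or.inl ⟨D, h2, hqD⟩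
    · right
      rw [rot_comm] at h2
      exact ⟨D, h2, hqD⟩
  have hne : ∀ a ∈ uIcc 0 η, g a ≠ 0 := by
    intro a ha
    rcases h1 a ha with ⟨D, hD, -⟩ | ⟨D, hD, -⟩
    · exact (sign_pos hD hp).ne'
    · exact (sign_neg hD hp).ne
  have l0 : (0:ℝ) ∈ uIcc 0 η := left_mem_uIcc
  have hconst : ∀ a ∈ uIcc 0 η, ¬ (0:ℝ) ∈ uIcc (g 0) (g a) := by
    intro a ha h0
    obtain ⟨x, hx, hx0⟩ := intermediate_value_uIcc (hgc.continuousOn (s := uIcc 0 a)) h0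
    exact hne x (uIcc_subset_uIcc l0 ha hx) hx0
  rcases lt_or_gt_of_ne (hne 0 l0) with h0 | h0
  · right
    have h2 : ∀ a, ∃ D : Set (ℝ × ℝ), a ∈ uIcc 0 η → D ∈ Orb ((X.rot π).rot a) p ∧ q a ∈ D := by
      intro a
      by_cases ha : a ∈ uIcc 0 η
      · rcases h1 a ha with ⟨D, hD, -⟩ | ⟨D, hD, hq'⟩
        · exact absurd (mem_uIcc.2 (Or.inl ⟨h0.le, (sign_pos hD hp).le⟩)) (hconst a ha)
        · exact ⟨D, fun _ => ⟨hD, hq'⟩⟩
      · exact ⟨∅, fun h => absurd h ha⟩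
    choose D hD using h2
    exact ⟨D, fun a ha => (hD a ha).1, fun a ha => (hD a ha).2, hq⟩
  · left
    have h2 : ∀ a, ∃ D : Set (ℝ × ℝ), a ∈ uIcc 0 η → D ∈ Orb (X.rot a) p ∧ q a ∈ D := by
      intro a
      by_cases ha : a ∈ uIcc 0 η
      · rcases h1 a ha with ⟨D, hD, hq'⟩ | ⟨D, hD, -⟩
        · exact ⟨D, fun _ => ⟨hD, hq'⟩⟩
        · exact absurd (mem_uIcc.2 (Or.inr ⟨(sign_neg hD hp).le, h0.le⟩)) (hconst a ha)
      · exact ⟨∅, fun h => absurd h ha⟩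
    choose D hD using h2
    exact ⟨D, fun a ha => (hD a ha).1, fun a ha => (hD a ha).2, hq⟩

/-- the closed orbit `C` of `X` persists under all rotations by angles between `0` and `η` -/
def Pers (X : QF) (η : ℝ) (C : Set (ℝ × ℝ)) : Prop :=
  ClosedOrbit X.f C ∧ ∃ p, X.f p = 0 ∧ ∃ q : ℝ → ℝ × ℝ, ContinuousOn q (uIcc 0 η) ∧ q 0 ∈ C ∧
    ∀ a ∈ uIcc 0 η, ∃ D, ClosedOrbit (X.rot a).f D ∧ q a ∈ D ∧ p ∈ interior (convexHull ℝ D)

lemma pers_fam {X : QF} {η : ℝ} {C : Set (ℝ × ℝ)} (h : Pers X η C) :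
    ∃ Z : QF, (Z = X ∨ Z = X.rot π) ∧ ∃ p D q, X.f p = 0 ∧ Fam Z p η D q ∧ D 0 = C := by
  obtain ⟨hC, p, hp, q, hq, hq0, hD⟩ := h
  have l0 : (0:ℝ) ∈ uIcc 0 η := left_mem_uIcc
  obtain ⟨γ, T, hc, rfl⟩ := minimalPeriod X C hC
  rcases raw_fam hp hq hD with ⟨D, F⟩ | ⟨D, F⟩
  · refine ⟨X, Or.inl rfl, p, D, q, hp, F, ?_⟩
    obtain ⟨γ', T', hc', -, hr⟩ := F.orb 0 l0
    rw [rot_zero'] at hc'
    have h1 := F.mem 0 l0
    rw [hr] at h1 ⊢
    obtain ⟨s', hs'⟩ := h1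
    obtain ⟨s, hs⟩ := hq0
    exact orbits_eq hc' hc (hs'.trans hs.symm)
  · refine ⟨X.rot π, Or.inr rfl, p, D, q, hp, F, ?_⟩
    obtain ⟨γ', T', hc', -, hr⟩ := F.orb 0 l0
    rw [rot_zero'] at hc'
    have h1 := F.mem 0 l0
    rw [hr] at h1 ⊢
    rw [← T13b_range γ] at hq0 ⊢
    obtain ⟨s', hs'⟩ := h1
    obtain ⟨s, hs⟩ := hq0
    exact orbits_eq hc' (T13b_rev hc) (hs'.trans hs.symm)

theorem pers_le (X : QF) {η : ℝ} (hη : |η| < π) {b : ℝ} (hb : b ∈ uIcc 0 η)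
    (hb0 : b ≠ 0) (hbη : b ≠ η) :
    {C | Pers X η C}.encard ≤ {D | ClosedOrbit (X.rot b).f D}.encard := by
  classical
  have h1 : ∀ C : Set (ℝ × ℝ), ∃ Z : QF, ∃ p D q, Pers X η C →
      (Z = X ∨ Z = X.rot π) ∧ X.f p = 0 ∧ Fam Z p η D q ∧ D 0 = C := by
    intro C
    by_cases h : Pers X η C
    · obtain ⟨Z, hZ, p, D, q, h2⟩ := pers_fam h
      exact ⟨Z, p, D, q, fun _ => ⟨hZ, h2⟩⟩
    · exact ⟨X, 0, fun _ => ∅, fun _ => 0, fun h' => absurd h' h⟩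
  choose Z p D q hall using h1
  refine Set.encard_le_encard_of_injOn (f := fun C => D C b) ?_ ?_
  · intro C hC
    obtain ⟨hZ, hp, F, hD0⟩ := hall C hC
    have hO := F.orb b hb
    rcases hZ with hZ | hZ
    · rw [hZ] at hO
      exact Orb.closed hO
    · rw [hZ, rot_comm] at hO
      exact Orb.closed_rev hO
  · intro C hC C' hC' hCC
    simp only at hCC
    obtain ⟨hZ, hp, F, hD0⟩ := hall C hC
    obtain ⟨hZ', hp', F', hD0'⟩ := hall C' hC'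
    have hO := F.orb b hb
    have hO' := F'.orb b hb
    rw [← hCC] at hO'
    have f0 : ∀ {r : ℝ × ℝ} (_ : X.f r = 0) (a : ℝ), (X.rot a).f r = 0 := by
      intro r hr a
      rw [QF.f_rot, hr]
      unfold H709R2.rot
      ext <;> simp
    have hZZ : Z C = Z C' := by
      rcases hZ with hZ | hZ <;> rcases hZ' with hZ' | hZ'
      · rw [hZ, hZ']
      · rw [hZ] at hO
        rw [hZ', rot_comm] at hO'
        exact (not_both hO hO').elim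
      · rw [hZ'] at hO'
        rw [hZ, rot_comm] at hO
        exact (not_both hO' hO).elim
      · rw [hZ, hZ']
    rw [← hZZ] at hO' F'
    have hz : ∀ {r : ℝ × ℝ} (_ : X.f r = 0), ((Z C).rot b).f r = 0 := by
      intro r hr
      rcases hZ with hZ | hZ
      · rw [hZ]
        exact f0 hr b
      · rw [hZ, QF.rot_rot]
        exact f0 hr _
    have hpp : p C = p C' := same_zero hO hO' (hz hp) (hz hp')
    rw [← hpp] at F'
    by_contra hne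
    exact nonmerge F F' hη hb hb0 hbη (by rw [hD0, hD0']; exact hne) hCC

lemma shift_le (X : QF) {u v : ℝ} (huv : v - u ≤ π) :
    ∫⁻ α in Ioo u v, NR X α ≤ ENNReal.ofReal (772 * 10 ^ 6) := by
  have h1 : ∫⁻ α in Ioo u v, NR X α = ∫⁻ α in Ioo 0 (v - u), NR (X.rot u) α := by
    rw [← lintegral_indicator measurableSet_Ioo, ← lintegral_indicator measurableSet_Ioo,
      ← lintegral_add_right_eq_self (μ := (volume : Measure ℝ)) _ u]
    refine lintegral_congr fun α => ?_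
    by_cases h : α ∈ Ioo 0 (v - u)
    · rw [indicator_of_mem h, indicator_of_mem, NR_rot]
      exact ⟨by linarith [h.1], by linarith [h.2]⟩
    · rw [indicator_of_notMem h, indicator_of_notMem]
      intro h'
      exact h ⟨by linarith [h'.1], by linarith [h'.2]⟩
  rw [h1]
  exact (lintegral_mono_set (Ioo_subset_Ioo_right huv)).trans (half_le _)

theorem pers_bound (X : QF) {η : ℝ} (hη0 : η ≠ 0) (hη : |η| < π) :
    (({C | Pers X η C}.encard : ℕ∞) : ℝ≥0∞) ≤ ENNReal.ofReal (772 * 10 ^ 6 / |η|) := by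
  set n : ℝ≥0∞ := (({C | Pers X η C}.encard : ℕ∞) : ℝ≥0∞) with hn
  have habs : 0 < |η| := abs_pos.2 hη0
  have h1 : ∀ b ∈ Ioo (min 0 η) (max 0 η), n ≤ NR X b := by
    intro b hb
    have hbm : b ∈ uIcc 0 η := ⟨hb.1.le, hb.2.le⟩
    have hb0 : b ≠ 0 := by
      rintro rfl
      rcases le_total 0 η with h | h
      · exact absurd hb.1 (by simp [min_eq_left h])
      · exact absurd hb.2 (by simp [max_eq_left h])
    have hbη : b ≠ η := by
      rintro rfl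
      rcases le_total 0 b with h | h
      · exact absurd hb.2 (by simp [max_eq_right h])
      · exact absurd hb.1 (by simp [min_eq_right h])
    exact ENat.toENNReal_le.2 (pers_le X hη hbm hb0 hbη)
  have hlen : max 0 η - min 0 η = |η| := by
    rcases le_total 0 η with h | h
    · rw [max_eq_right h, min_eq_left h, abs_of_nonneg h, sub_zero]
    · rw [max_eq_left h, min_eq_right h, abs_of_nonpos h, zero_sub]
  have h2 : n * ENNReal.ofReal |η| ≤ ENNReal.ofReal (772 * 10 ^ 6) := by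
    calc n * ENNReal.ofReal |η| = ∫⁻ _ in Ioo (min 0 η) (max 0 η), n := by
          rw [lintegral_const, Measure.restrict_apply MeasurableSet.univ, univ_inter,
            Real.volume_Ioo, hlen]
      _ ≤ ∫⁻ b in Ioo (min 0 η) (max 0 η), NR X b := setLIntegral_mono' measurableSet_Ioo h1
      _ ≤ _ := shift_le X (by rw [hlen]; exact hη.le)
  rw [ENNReal.ofReal_div_of_pos habs]
  exact (ENNReal.le_div_iff_mul_le (Or.inl (by simpa using habs)) (Or.inl ENNReal.ofReal_ne_top)).2 h2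

end Pool.Agent.H709P
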