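import Pool.Agent.H709P.C

/-! Closed orbits which persist under rotation: the total length of the persistence intervals. -/

open Real Set MeasureTheory Topology Filter
open scoped ENNReal

namespace Pool.Agent.H709P

open Pool.Agent.H709Q
open Pool.Agent.H709R2 (wedge ClosedOrbit)

lemma NR_sign (X : QF) {σ : ℝ} (hσ : σ = 1 ∨ σ = -1) :
    ∫⁻ b in Ioo 0 π, NR X (σ * b) ≤ ENNReal.ofReal (772 * 10 ^ 6) := by
  rcases hσ with rfl | rfl
  · simp only [one_mul]
    exact half_le X
  · have h1 : ∫⁻ b in Ioo 0 π, NR X (-1 * b) = ∫⁻ b in Ioo 0 π, NR (X.rot (-π)) b := by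
      rw [← lintegral_indicator measurableSet_Ioo, ← lintegral_indicator measurableSet_Ioo,
        ← lintegral_sub_left_eq_self (μ := (volume : Measure ℝ)) _ π]
      refine lintegral_congr fun α => ?_
      by_cases h : α ∈ Ioo 0 π
      · rw [indicator_of_mem h, indicator_of_mem (show π - α ∈ Ioo 0 π from
          ⟨by linarith [h.2], by linarith [h.1]⟩), NR_rot]
        congr 1
        ring
      · rw [indicator_of_notMem h, indicator_of_notMem]
        intro h'
        exact h ⟨by linarith [h'.2], by linarith [h'.1]⟩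
    rw [h1]
    exact half_le _

lemma sum_le (X : QF) {σ : ℝ} (hσ : σ = 1 ∨ σ = -1) (s : Finset (Set (ℝ × ℝ)))
    (A : Set (ℝ × ℝ) → Set ℝ) (hm : ∀ C ∈ s, MeasurableSet (A C))
    (hA : ∀ C ∈ s, ∀ η ∈ A C, η ∈ Ioo 0 π ∧ Pers X (σ * η) C) :
    ∑ C ∈ s, volume (A C) ≤ ENNReal.ofReal (772 * 10 ^ 6) := by
  classical
  have hσ0 : |σ| = 1 := by rcases hσ with h | h <;> simp [h]
  have key : ∀ ε : ℝ, 0 < ε → ∑ C ∈ s, volume (A C) ≤
      ENNReal.ofReal (772 * 10 ^ 6) + s.card * ENNReal.ofReal ε := by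
    intro ε hε
    have h1 : ∑ C ∈ s, volume (A C) ≤ ∑ C ∈ s, (volume (A C ∩ Ioi ε) + ENNReal.ofReal ε) := by
      refine Finset.sum_le_sum fun C hC => ?_
      calc volume (A C) ≤ volume ((A C ∩ Ioi ε) ∪ Ioc 0 ε) := by
            refine measure_mono fun η hη => ?_
            by_cases h : ε < η
            · exact Or.inl ⟨hη, h⟩
            · exact Or.inr ⟨(hA C hC η hη).1.1, not_lt.1 h⟩
        _ ≤ volume (A C ∩ Ioi ε) + volume (Ioc 0 ε) := measure_union_le _ _
        _ = volume (A C ∩ Ioi ε) + ENNReal.ofReal ε := by rw [Real.volume_Ioc, sub_zero]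
    refine h1.trans ?_
    rw [Finset.sum_add_distrib, Finset.sum_const, nsmul_eq_mul]
    gcongr
    have h2 : ∑ C ∈ s, volume (A C ∩ Ioi ε) =
        ∫⁻ η, ∑ C ∈ s, (A C ∩ Ioi ε).indicator (fun _ => (1:ℝ≥0∞)) η := by
      rw [lintegral_finset_sum']
      · refine Finset.sum_congr rfl fun C hC => ?_
        rw [lintegral_indicator ((hm C hC).inter measurableSet_Ioi), lintegral_const, one_mul,
          Measure.restrict_apply_univ]
      · intro C hC
        exact (measurable_const.indicator ((hm C hC).inter measurableSet_Ioi)).aemeasurable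
    rw [h2]
    have h3 : ∀ η : ℝ, ∑ C ∈ s, (A C ∩ Ioi ε).indicator (fun _ => (1:ℝ≥0∞)) η ≤
        (Ioo 0 (π - ε)).indicator (fun b => NR X (σ * b)) (η - ε) := by
      intro η
      have e1 : ∑ C ∈ s, (A C ∩ Ioi ε).indicator (fun _ => (1:ℝ≥0∞)) η =
          ((s.filter fun C => η ∈ A C ∩ Ioi ε).card : ℝ≥0∞) := by
        rw [Finset.card_filter]
        push_cast
        refine Finset.sum_congr rfl fun C _ => ?_
        by_cases h : η ∈ A C ∩ Ioi ε
        · rw [indicator_of_mem h, if_pos h]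
        · rw [indicator_of_notMem h, if_neg h]
      rw [e1]
      rcases (s.filter fun C => η ∈ A C ∩ Ioi ε).eq_empty_or_nonempty with h0 | ⟨C₀, hC₀⟩
      · rw [h0]
        simp
      · rw [Finset.mem_filter] at hC₀
        obtain ⟨hη1, hη2⟩ := (hA C₀ hC₀.1 η hC₀.2.1)
        have hηε : ε < η := hC₀.2.2
        have hmem : η - ε ∈ Ioo 0 (π - ε) := ⟨by linarith, by linarith [hη1.2]⟩
        rw [indicator_of_mem hmem]
        have hlt : |σ * η| < π := by
          rw [abs_mul, hσ0, one_mul, abs_of_pos hη1.1]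
          exact hη1.2
        have hb : σ * (η - ε) ∈ uIcc 0 (σ * η) := by
          rcases hσ with rfl | rfl
          · rw [mem_uIcc]
            left
            constructor <;> linarith
          · rw [mem_uIcc]
            right
            constructor <;> linarith
        have hb0 : σ * (η - ε) ≠ 0 := by
          rcases hσ with rfl | rfl
          · exact ne_of_gt (by linarith)
          · exact ne_of_lt (by linarith)
        have hbη : σ * (η - ε) ≠ σ * η := by
          rcases hσ with rfl | rfl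
          · exact ne_of_lt (by linarith)
          · exact ne_of_gt (by linarith)
        have h4 := pers_le X hlt hb hb0 hbη
        have h5 : ((s.filter fun C => η ∈ A C ∩ Ioi ε).card : ℕ∞) ≤
            {C | Pers X (σ * η) C}.encard := by
          rw [← Set.encard_coe_eq_coe_finsetCard]
          apply Set.encard_le_encard
          intro C hC
          simp only [Finset.coe_filter, mem_ofPred_eq] at hC
          exact (hA C hC.1 η hC.2.1).2
        have h6 := ENat.toENNReal_le.2 (h5.trans h4)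
        simpa [NR] using h6
    calc ∫⁻ η, ∑ C ∈ s, (A C ∩ Ioi ε).indicator (fun _ => (1:ℝ≥0∞)) η
        ≤ ∫⁻ η, (Ioo 0 (π - ε)).indicator (fun b => NR X (σ * b)) (η - ε) := lintegral_mono h3
      _ = ∫⁻ b, (Ioo 0 (π - ε)).indicator (fun b => NR X (σ * b)) b :=
          lintegral_sub_right_eq_self _ ε
      _ = ∫⁻ b in Ioo 0 (π - ε), NR X (σ * b) := lintegral_indicator measurableSet_Ioo _
      _ ≤ ∫⁻ b in Ioo 0 π, NR X (σ * b) :=
          lintegral_mono_set (Ioo_subset_Ioo_right (by linarith))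
      _ ≤ _ := NR_sign X hσ
  refine ENNReal.le_of_forall_pos_le_add fun δ hδ _ => ?_
  by_cases hs : s.card = 0
  · have := key 1 one_pos
    rw [hs] at this
    simp only [Nat.cast_zero, zero_mul, add_zero] at this
    exact this.trans le_self_add
  · have hn : (0:ℝ) < s.card := by exact_mod_cast Nat.pos_of_ne_zero hs
    have h1 := key (δ / s.card) (by positivity)
    refine h1.trans ?_
    gcongr
    rw [← ENNReal.ofReal_natCast, ← ENNReal.ofReal_mul hn.le, mul_div_cancel₀ _ hn.ne']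
    simp

/-- persistence is inherited by smaller angles -/
lemma Pers.mono {X : QF} {η η' : ℝ} {C : Set (ℝ × ℝ)} (h : Pers X η C) (hη : η' ∈ uIcc 0 η) :
    Pers X η' C := by
  obtain ⟨hC, p, hp, q, hq, hq0, hD⟩ := h
  have hsub : uIcc 0 η' ⊆ uIcc 0 η := uIcc_subset_uIcc left_mem_uIcc hη
  exact ⟨hC, p, hp, q, hq.mono hsub, hq0, fun a ha => hD a (hsub ha)⟩

lemma meas_A (X : QF) {σ : ℝ} (hσ : σ = 1 ∨ σ = -1) (C : Set (ℝ × ℝ)) :
    MeasurableSet {η | η ∈ Ioo 0 π ∧ Pers X (σ * η) C} := by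
  have : OrdConnected {η | η ∈ Ioo 0 π ∧ Pers X (σ * η) C} := by
    refine ⟨?_⟩
    rintro x ⟨hx, -⟩ y ⟨hy, hy'⟩ z ⟨hz1, hz2⟩
    refine ⟨⟨hx.1.trans_le hz1, hz2.trans_lt hy.2⟩, hy'.mono ?_⟩
    have hx0 := hx.1
    rcases hσ with rfl | rfl
    · rw [mem_uIcc]
      left
      constructor <;> linarith
    · rw [mem_uIcc]
      right
      constructor <;> linarith
  exact this.measurableSet

theorem total (X : QF) (s : Finset (Set (ℝ × ℝ))) :
    ∑ C ∈ s, volume {η | η ∈ Ioo (-π) π ∧ Pers X η C} ≤ ENNReal.ofReal (1.544 * 10 ^ 9) := by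
  have h1 : ∀ C, volume {η | η ∈ Ioo (-π) π ∧ Pers X η C} ≤
      volume {η | η ∈ Ioo 0 π ∧ Pers X (1 * η) C} +
        volume {η | η ∈ Ioo 0 π ∧ Pers X (-1 * η) C} := by
    intro C
    have h2 : {η | η ∈ Ioo (-π) π ∧ Pers X η C} ⊆
        ({η | η ∈ Ioo 0 π ∧ Pers X (1 * η) C} ∪
          (fun η => -η) ⁻¹' {η | η ∈ Ioo 0 π ∧ Pers X (-1 * η) C}) ∪ {0} := by
      rintro η ⟨hη, hP⟩
      rcases lt_trichotomy η 0 with h | h | h
      · left; right
        refine ⟨⟨by linarith, by linarith [hη.1]⟩, ?_⟩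
        simpa using hP
      · right
        exact h
      · left; left
        exact ⟨⟨h, hη.2⟩, by simpa using hP⟩
    calc volume {η | η ∈ Ioo (-π) π ∧ Pers X η C} ≤ _ := measure_mono h2
      _ ≤ volume ({η | η ∈ Ioo 0 π ∧ Pers X (1 * η) C} ∪
          (fun η => -η) ⁻¹' {η | η ∈ Ioo 0 π ∧ Pers X (-1 * η) C}) + volume {(0:ℝ)} :=
          measure_union_le _ _
      _ ≤ (volume {η | η ∈ Ioo 0 π ∧ Pers X (1 * η) C} +
          volume ((fun η => -η) ⁻¹' {η | η ∈ Ioo 0 π ∧ Pers X (-1 * η) C})) + volume {(0:ℝ)} := by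
          gcongr
          exact measure_union_le _ _
      _ = _ := by
          rw [Real.volume_singleton, add_zero]
          congr 1
          exact (Measure.measurePreserving_neg (volume : Measure ℝ)).measure_preimage
            (meas_A X (Or.inr rfl) C).nullMeasurableSet
  calc ∑ C ∈ s, volume {η | η ∈ Ioo (-π) π ∧ Pers X η C}
      ≤ ∑ C ∈ s, (volume {η | η ∈ Ioo 0 π ∧ Pers X (1 * η) C} +
        volume {η | η ∈ Ioo 0 π ∧ Pers X (-1 * η) C}) := Finset.sum_le_sum fun C _ => h1 C
    _ = (∑ C ∈ s, volume {η | η ∈ Ioo 0 π ∧ Pers X (1 * η) C}) +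
        ∑ C ∈ s, volume {η | η ∈ Ioo 0 π ∧ Pers X (-1 * η) C} := Finset.sum_add_distrib
    _ ≤ ENNReal.ofReal (772 * 10 ^ 6) + ENNReal.ofReal (772 * 10 ^ 6) := by
        gcongr
        · exact sum_le X (Or.inl rfl) s _ (fun C _ => meas_A X (Or.inl rfl) C)
            fun C _ η hη => hη
        · exact sum_le X (Or.inr rfl) s _ (fun C _ => meas_A X (Or.inr rfl) C)
            fun C _ η hη => hη
    _ = ENNReal.ofReal (1.544 * 10 ^ 9) := by
        rw [← ENNReal.ofReal_add (by norm_num) (by norm_num)]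
        norm_num

end Pool.Agent.H709P
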