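import Pool.Agent.H709P.D

/-! Closed orbits around a focus `p` which persist in the family `X + ν (q - p)`. -/

open Real Set MeasureTheory Topology Filter
open scoped ENNReal

namespace Pool.Agent.H709P

open Pool.Agent.H709Q
open Pool.Agent.H709R2 (wedge ClosedOrbit)

/-- Two closed integral curves of fields which are transversal along the first curve, always with
the same sign, do not meet. -/
theorem no_meeting2 {V W : ℝ × ℝ → ℝ × ℝ} (hV : Continuous V) (hW : Continuous W) {σ : ℝ}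
    {γ η : ℝ → ℝ × ℝ} {T S : ℝ} (hT : 0 < T) (hS : 0 < S)
    (hγ : ∀ t, HasDerivAt γ (V (γ t)) t) (hη : ∀ t, HasDerivAt η (W (η t)) t)
    (pγ : γ T = γ 0) (pη : η S = η 0) (h0 : ∀ t, 0 < σ * wedge (V (γ t)) (W (γ t))) :
    γ 0 ≠ η 0 := by
  intro hmeet
  have cγ0 : Continuous γ := continuous_iff_continuousAt.2 fun t => (hγ t).continuousAt
  have cη0 : Continuous η := continuous_iff_continuousAt.2 fun t => (hη t).continuousAt
  -- the function which is positive on the diagonal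
  set G : (ℝ × ℝ) × (ℝ × ℝ) → ℝ := fun q => σ * wedge (V q.1) (W q.2) with hG
  have cG : Continuous G := by
    have h1 : Continuous fun q : (ℝ × ℝ) × (ℝ × ℝ) => V q.1 := hV.comp continuous_fst
    have h2 : Continuous fun q : (ℝ × ℝ) × (ℝ × ℝ) => W q.2 := hW.comp continuous_snd
    simp only [hG, wedge]
    fun_prop
  set K : Set ((ℝ × ℝ) × (ℝ × ℝ)) := (fun t => (γ t, γ t)) '' Icc 0 T with hK
  have hKc : IsCompact K := isCompact_Icc.image (by fun_prop)
  have hKO : K ⊆ G ⁻¹' Ioi 0 := by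
    rintro _ ⟨t, -, rfl⟩
    simp only [hG, mem_preimage, mem_Ioi]
    exact h0 t
  obtain ⟨ε, hε, hthick⟩ := hKc.exists_thickening_subset_open (isOpen_Ioi.preimage cG) hKO
  -- bump function
  let f : ContDiffBump (0:ℝ) := ⟨ε / 2, ε, by positivity, by linarith⟩
  have hfc : ContDiff ℝ 1 f := f.contDiff
  have hfd : ∀ x, HasDerivAt f (deriv f x) x := fun x =>
    (hfc.differentiable one_ne_zero x).hasDerivAt
  have hfd' : Continuous (deriv f) := hfc.continuous_deriv le_rfl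
  have key := H709R2.torus_identity (γ := γ) (η := η) (γ' := fun t => V (γ t))
    (η' := fun t => W (η t)) hγ hη (hV.comp cγ0) (hW.comp cη0) pγ pη hfc.continuous hfd hfd'
  set I : ℝ → ℝ → ℝ := fun s t => f ((γ s).1 - (η t).1) * f ((γ s).2 - (η t).2) *
    wedge (V (γ s)) (W (η t)) with hI
  have hpos : ∀ s ∈ Icc 0 T, ∀ t, 0 ≤ σ * I s t := by
    intro s hs t
    by_cases h1 : |(γ s).1 - (η t).1| < ε
    · by_cases h2 : |(γ s).2 - (η t).2| < ε
      · have h3 : ((γ s, η t) : (ℝ × ℝ) × (ℝ × ℝ)) ∈ Metric.thickening ε K := by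
          rw [Metric.mem_thickening_iff]
          refine ⟨(γ s, γ s), ⟨s, hs, rfl⟩, ?_⟩
          rw [Prod.dist_eq, dist_self, Prod.dist_eq, Real.dist_eq, Real.dist_eq]
          simp only [abs_sub_comm (η t).1, abs_sub_comm (η t).2]
          exact max_lt hε (max_lt h1 h2)
        have h4 := hthick h3
        simp only [hG, mem_preimage, mem_Ioi] at h4
        have h5 : σ * I s t = (f ((γ s).1 - (η t).1) * f ((γ s).2 - (η t).2)) *
          (σ * wedge (V (γ s)) (W (η t))) := by simp only [hI]; ring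
        rw [h5]
        exact mul_nonneg (mul_nonneg f.nonneg f.nonneg) h4.le
      · have : f ((γ s).2 - (η t).2) = 0 := by
          apply f.zero_of_le_dist
          rw [Real.dist_eq, sub_zero]
          exact not_lt.1 h2
        simp only [hI, this]
        simp
    · have : f ((γ s).1 - (η t).1) = 0 := by
        apply f.zero_of_le_dist
        rw [Real.dist_eq, sub_zero]
        exact not_lt.1 h1
      simp only [hI, this]
      simp
  have hpos0 : 0 < σ * I 0 0 := by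
    have h6 : f (0:ℝ) = 1 := f.one_of_mem_closedBall (Metric.mem_closedBall_self (by
      change 0 ≤ ε / 2; positivity))
    simp only [hI, ← hmeet, sub_self, h6, one_mul]
    exact h0 0
  have cI : Continuous (fun p : ℝ × ℝ => σ * I p.1 p.2) := by
    have c1 : Continuous fun p : ℝ × ℝ => V (γ p.1) := hV.comp (cγ0.comp continuous_fst)
    have c2 : Continuous fun p : ℝ × ℝ => W (η p.2) := hW.comp (cη0.comp continuous_snd)
    have c3 : Continuous f := hfc.continuous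
    have c4 : Continuous fun p : ℝ × ℝ => (γ p.1).1 - (η p.2).1 := by fun_prop
    have c5 : Continuous fun p : ℝ × ℝ => (γ p.1).2 - (η p.2).2 := by fun_prop
    have c6 := c3.comp c4
    have c7 := c3.comp c5
    simp only [hI, wedge]
    simp only [Function.comp_def] at c6 c7
    fun_prop
  have e1 : ∫ s in (0:ℝ)..T, ∫ t in (0:ℝ)..S, σ * I s t = 0 := by
    simp_rw [intervalIntegral.integral_const_mul]
    rw [key, mul_zero]
  have e2 : 0 < ∫ s in (0:ℝ)..T, ∫ t in (0:ℝ)..S, σ * I s t := by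
    refine intervalIntegral.integral_pos hT ?_ ?_ ⟨0, ⟨le_rfl, hT.le⟩, ?_⟩
    · exact (intervalIntegral.continuous_parametric_intervalIntegral_of_continuous'
        (f := fun s t => σ * I s t) cI 0 S).continuousOn
    · intro s hs
      exact intervalIntegral.integral_nonneg hS.le fun t _ => hpos s (Ioc_subset_Icc_self hs) t
    · refine intervalIntegral.integral_pos hS ?_ ?_ ⟨0, ⟨le_rfl, hS.le⟩, hpos0⟩
      · exact (cI.comp (by fun_prop : Continuous fun t : ℝ => ((0:ℝ), t))).continuousOn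
      · intro t _
        exact hpos 0 ⟨le_rfl, hT.le⟩ t
  linarith


/-- the field `X + ν (z - p)` -/
def tw (X : QF) (p : ℝ × ℝ) (ν : ℝ) : QF where
  a0 := X.a0 - ν * p.1
  a1 := X.a1 + ν
  a2 := X.a2
  a3 := X.a3
  a4 := X.a4
  a5 := X.a5
  b0 := X.b0 - ν * p.2
  b1 := X.b1
  b2 := X.b2 + ν
  b3 := X.b3
  b4 := X.b4
  b5 := X.b5

lemma tw_f (X : QF) (p : ℝ × ℝ) (ν : ℝ) (z : ℝ × ℝ) :
    (tw X p ν).f z = X.f z + ν • (z - p) := by
  unfold QF.f tw
  ext <;> simp only [Prod.fst_add, Prod.snd_add, Prod.smul_fst, Prod.smul_snd, Prod.fst_sub,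
    Prod.snd_sub, smul_eq_mul] <;> ring

lemma tw_D (X : QF) (p : ℝ × ℝ) (ν : ℝ) (z v : ℝ × ℝ) :
    (tw X p ν).D z v = X.D z v + ν • v := by
  unfold QF.D tw
  ext <;> simp only [Prod.fst_add, Prod.snd_add, Prod.smul_fst, Prod.smul_snd,
    smul_eq_mul] <;> ring

/-- the pieces of the complement of a convex closed orbit -/
lemma inn_of_bounded {X : QF} {γ : ℝ → ℝ × ℝ} {T : ℝ} (h : Cyc X γ T) (hW : CCW X γ)
    {p : ℝ × ℝ} (hp : p ∉ range γ)
    (hb : Bornology.IsBounded (connectedComponentIn (range γ)ᶜ p)) : p ∈ Inn X γ := by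
  rcases trich h hW hp with h1 | ⟨t, ht⟩
  · exact h1
  · exfalso
    -- a half plane in the component
    have hconv : Convex ℝ {z | wedge (X.f (γ t)) (z - γ t) < 0} := by
      intro z hz w hw a b ha hb hab
      simp only [mem_ofPred_eq] at hz hw ⊢
      unfold wedge at hz hw ⊢
      simp only [Prod.fst_sub, Prod.snd_sub, Prod.fst_add, Prod.snd_add, Prod.smul_fst,
        Prod.smul_snd, smul_eq_mul] at hz hw ⊢
      have hb' : b = 1 - a := by linarith
      subst hb'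
      rcases eq_or_lt_of_le ha with h0 | h0
      · subst h0
        nlinarith
      · have e1 := mul_neg_of_pos_of_neg h0 hz
        have e2 := mul_nonpos_of_nonneg_of_nonpos hb hw.le
        nlinarith
    have hsub : {z | wedge (X.f (γ t)) (z - γ t) < 0} ⊆ connectedComponentIn (range γ)ᶜ p := by
      refine hconv.isPreconnected.subset_connectedComponentIn ht ?_
      rintro z hz ⟨s, rfl⟩
      exact absurd (hW.nonneg t s) (not_le.2 hz)
    have hbd := hb.subset hsub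
    obtain ⟨R, hR⟩ := hbd.exists_norm_le
    set F := X.f (γ t) with hF
    have hFne : F ≠ 0 := h.ne t
    have hFF : 0 < F.1 ^ 2 + F.2 ^ 2 := by
      have := H709R2.sq_pos hFne
      exact this
    have hR0 : 0 ≤ R := (norm_nonneg _).trans (hR p ht)
    -- far point
    set k : ℝ := (2 * R + 1) * (|F.1| + |F.2| + 1) / (F.1 ^ 2 + F.2 ^ 2) with hk
    have hk0 : 0 < k := by positivity
    have hmem : p - k • ((-F.2, F.1) : ℝ × ℝ) ∈ {z | wedge F (z - γ t) < 0} := by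
      simp only [mem_ofPred_eq]
      unfold wedge at ht ⊢
      simp only [Prod.fst_sub, Prod.snd_sub, Prod.smul_fst, Prod.smul_snd, smul_eq_mul] at ht ⊢
      nlinarith [mul_pos hk0 hFF]
    have h2 := hR _ hmem
    have h3 := hR p ht
    have h4 : ‖k • ((-F.2, F.1) : ℝ × ℝ)‖ ≤ 2 * R := by
      have : k • ((-F.2, F.1) : ℝ × ℝ) = p - (p - k • ((-F.2, F.1) : ℝ × ℝ)) := by abel
      rw [this]
      refine (norm_sub_le _ _).trans ?_
      linarith
    have h5 : k * |F.1| ≤ 2 * R := by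
      refine le_trans ?_ h4
      have := norm_snd_le (k • ((-F.2, F.1) : ℝ × ℝ))
      simpa [abs_mul, abs_of_pos hk0] using this
    have h6 : k * |F.2| ≤ 2 * R := by
      refine le_trans ?_ h4
      have := norm_fst_le (k • ((-F.2, F.1) : ℝ × ℝ))
      simpa [abs_mul, abs_of_pos hk0] using this
    have h7 : k * (F.1 ^ 2 + F.2 ^ 2) = (2 * R + 1) * (|F.1| + |F.2| + 1) := by
      rw [hk]
      field_simp
    have h8 : k * (F.1 ^ 2 + F.2 ^ 2) = k * |F.1| * |F.1| + k * |F.2| * |F.2| := by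
      rw [← sq_abs F.1, ← sq_abs F.2]
      ring
    have h9 := mul_le_mul_of_nonneg_right h5 (abs_nonneg F.1)
    have h10 := mul_le_mul_of_nonneg_right h6 (abs_nonneg F.2)
    have h11 := abs_nonneg F.1
    have h12 := abs_nonneg F.2
    nlinarith

/-- disjointness in the family -/
lemma tw_disj {X : QF} {p : ℝ × ℝ} {ν μ : ℝ} (h : ν ≠ μ) {C C' : Set (ℝ × ℝ)}
    (hC : C ∈ Orb (tw X p ν) p) (hC' : C' ∈ Orb (tw X p μ) p) : Disjoint C C' := by
  obtain ⟨γ, T, hc, hA, rfl⟩ := hC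
  obtain ⟨γ', T', hc', -, rfl⟩ := hC'
  rw [Set.disjoint_left]
  rintro _ ⟨s, rfl⟩ ⟨s', hs'⟩
  refine no_meeting2 (V := (tw X p ν).f) (W := (tw X p μ).f) (σ := ν - μ) (tw X p ν).continuous_f
    (tw X p μ).continuous_f (γ := fun t => γ (t + s))
    (η := fun t => γ' (t + s')) hc.pos hc'.pos (fun t => (hc.ode (t + s)).comp_add_const t s)
    (fun t => (hc'.ode (t + s')).comp_add_const t s') ?_ ?_ ?_ ?_
  · show γ (T + s) = γ (0 + s)
    rw [zero_add, add_comm T s, hc.per]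
  · show γ' (T' + s') = γ' (0 + s')
    rw [zero_add, add_comm T' s', hc'.per]
  · intro t
    have h1 := hA (t + s)
    rw [tw_f] at h1
    rw [tw_f, tw_f]
    set z := γ (t + s)
    have h2 : (ν - μ) * wedge (X.f z + ν • (z - p)) (X.f z + μ • (z - p)) =
        (ν - μ) ^ 2 * wedge (z - p) (X.f z + ν • (z - p)) := by
      unfold wedge
      simp only [Prod.fst_add, Prod.snd_add, Prod.smul_fst, Prod.smul_snd, Prod.fst_sub,
        Prod.snd_sub, smul_eq_mul]
      ring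
    show 0 < (ν - μ) * wedge (X.f z + ν • (z - p)) (X.f z + μ • (z - p))
    rw [h2]
    exact mul_pos (by have := sub_ne_zero.2 h; positivity) h1
  · show γ (0 + s) = γ' (0 + s')
    rw [zero_add, zero_add, hs']

/-- a family of closed orbits around `p` with a continuous choice of points -/
structure GFam (Y : ℝ → QF) (p : ℝ × ℝ) (x η : ℝ) (D : ℝ → Set (ℝ × ℝ)) (q : ℝ → ℝ × ℝ) :
    Prop where
  orb : ∀ a ∈ uIcc x η, D a ∈ Orb (Y a) p
  mem : ∀ a ∈ uIcc x η, q a ∈ D a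
  cont : ContinuousOn q (uIcc x η)

lemma GFam.nb {Y : ℝ → QF} {p : ℝ × ℝ} {x₀ η : ℝ} {D : ℝ → Set (ℝ × ℝ)} {q : ℝ → ℝ × ℝ}
    (F : GFam Y p x₀ η D q) {a b : ℝ} (ha : a ∈ uIcc x₀ η) (hb : b ∈ uIcc x₀ η) {Z : QF}
    {K : Set (ℝ × ℝ)} (hK : K ∈ Orb Z p) {r₁ r₂ r : ℝ} (h1 : 0 < r₁) (h2 : 0 < r₂) (hr : 0 < r)
    (m1 : p + r₁ • ((1, 0) : ℝ × ℝ) ∈ D a) (m2 : p + r₂ • ((1, 0) : ℝ × ℝ) ∈ D b)
    (m : p + r • ((1, 0) : ℝ × ℝ) ∈ K) (hd : ∀ x ∈ uIcc a b, Disjoint (D x) K) :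
    NB r₁ r₂ r := by
  have hsub : uIcc a b ⊆ uIcc x₀ η := uIcc_subset_uIcc ha hb
  refine sep hK (F.orb a ha) (F.orb b hb) hr h1 h2 m m1 m2 (hd a left_mem_uIcc)
    (hd b right_mem_uIcc) (S := q '' uIcc a b) ?_ ?_ ⟨q a, ⟨a, left_mem_uIcc, rfl⟩, F.mem a ha⟩
    ⟨q b, ⟨b, right_mem_uIcc, rfl⟩, F.mem b hb⟩
  · exact isPreconnected_uIcc.image q (F.cont.mono hsub)
  · rw [Set.disjoint_left]
    rintro _ ⟨x, hx, rfl⟩ hxK
    exact Set.disjoint_left.1 (hd x hx) (F.mem x (hsub hx)) hxK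

/-- two persistent families around the same point do not merge -/
theorem gnonmerge {Y : ℝ → QF} {p : ℝ × ℝ} {x₀ η : ℝ} {D D' : ℝ → Set (ℝ × ℝ)}
    {q q' : ℝ → ℝ × ℝ}
    (hdj : ∀ a ∈ uIcc x₀ η, ∀ c ∈ uIcc x₀ η, a ≠ c → ∀ C ∈ Orb (Y a) p, ∀ C' ∈ Orb (Y c) p,
      Disjoint C C')
    (F : GFam Y p x₀ η D q) (F' : GFam Y p x₀ η D' q') {b : ℝ} (hb : b ∈ uIcc x₀ η)
    (hb0 : b ≠ x₀) (hbη : b ≠ η) (hne : D x₀ ≠ D' x₀) : D b ≠ D' b := by
  intro he
  have l0 : x₀ ∈ uIcc x₀ η := left_mem_uIcc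
  have lη : η ∈ uIcc x₀ η := right_mem_uIcc
  obtain ⟨x, hx, mx⟩ := exists_ray (F.orb x₀ l0)
  obtain ⟨x', hx', mx'⟩ := exists_ray (F'.orb x₀ l0)
  obtain ⟨m, hm, mm⟩ := exists_ray (F.orb b hb)
  obtain ⟨S, hS, mS⟩ := exists_ray (F.orb η lη)
  have mm' : p + m • ((1, 0) : ℝ × ℝ) ∈ D' b := he ▸ mm
  have d00 : Disjoint (D x₀) (D' x₀) := by
    rw [Set.disjoint_left]
    intro z hz hz'
    exact hne (orb_eq (F.orb x₀ l0) (F'.orb x₀ l0) hz hz')
  have hxx : x ≠ x' := by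
    rintro rfl
    exact Set.disjoint_left.1 d00 mx mx'
  have s0b : uIcc x₀ b ⊆ uIcc x₀ η := uIcc_subset_uIcc l0 hb
  have sbη : uIcc b η ⊆ uIcc x₀ η := uIcc_subset_uIcc hb lη
  have n0b : ∀ y ∈ uIcc x₀ b, y ≠ η := by
    rintro y hy rfl
    exact hbη (eq_of_mem_uIcc_of_mem_uIcc (c := x₀) (by rwa [uIcc_comm] at hb)
      (by rwa [uIcc_comm] at hy))
  have nbη : ∀ y ∈ uIcc b η, y ≠ x₀ := by
    rintro y hy rfl
    exact hb0 (eq_of_mem_uIcc_of_mem_uIcc hb hy)
  refine comb hxx ?_ ?_ ?_ ?_ ?_ ?_ (x := x) (x' := x') (m := m) (S := S)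
  · refine F.nb l0 hb (F'.orb x₀ l0) hx hm hx' mx mm mx' fun y hy => ?_
    by_cases h : y = x₀
    · rw [h]; exact d00
    · exact hdj y (s0b hy) x₀ l0 h _ (F.orb y (s0b hy)) _ (F'.orb x₀ l0)
  · refine F'.nb l0 hb (F.orb x₀ l0) hx' hm hx mx' mm' mx fun y hy => ?_
    by_cases h : y = x₀
    · rw [h]; exact d00.symm
    · exact hdj y (s0b hy) x₀ l0 h _ (F'.orb y (s0b hy)) _ (F.orb x₀ l0)
  · exact F.nb l0 hb (F.orb η lη) hx hm hS mx mm mS fun y hy =>
      hdj y (s0b hy) η lη (n0b y hy) _ (F.orb y (s0b hy)) _ (F.orb η lη)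
  · exact F'.nb l0 hb (F.orb η lη) hx' hm hS mx' mm' mS fun y hy =>
      hdj y (s0b hy) η lη (n0b y hy) _ (F'.orb y (s0b hy)) _ (F.orb η lη)
  · exact F.nb hb lη (F.orb x₀ l0) hm hS hx mm mS mx fun y hy =>
      hdj y (sbη hy) x₀ l0 (nbη y hy) _ (F.orb y (sbη hy)) _ (F.orb x₀ l0)
  · exact F.nb hb lη (F'.orb x₀ l0) hm hS hx' mm mS mx' fun y hy =>
      hdj y (sbη hy) x₀ l0 (nbη y hy) _ (F.orb y (sbη hy)) _ (F'.orb x₀ l0)

end Pool.Agent.H709P
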