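import Pool.Agent.H709P.E

/-! Closed orbits around a focus `p` which persist in the family `X + ν (q - p)`: counting. -/

open Real Set MeasureTheory Topology Filter
open scoped ENNReal

namespace Pool.Agent.H709P

open Pool.Agent.H709Q
open Pool.Agent.H709R2 (wedge ClosedOrbit)

/-- closed orbits of `X + ν (z - p)` surrounding `p` -/
def CA (X : QF) (p : ℝ × ℝ) (ν : ℝ) (C : Set (ℝ × ℝ)) : Prop :=
  ClosedOrbit (tw X p ν).f C ∧ p ∉ C ∧ Bornology.IsBounded (connectedComponentIn Cᶜ p)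

lemma around_of_inn {X : QF} {γ : ℝ → ℝ × ℝ} {p : ℝ × ℝ} (h : p ∈ Inn X γ) : Around X p γ := by
  intro t
  have := h t
  unfold wedge at this ⊢
  simp only [Prod.fst_sub, Prod.snd_sub] at this ⊢
  linarith

lemma tw_rot (X : QF) (p : ℝ × ℝ) (ν : ℝ) : (tw X p ν).rot π = tw (X.rot π) p (-1 * ν) := by
  cases X
  simp only [tw, QF.rot, Real.cos_pi, Real.sin_pi, QF.mk.injEq]
  refine ⟨?_, ?_, ?_, ?_, ?_, ?_, ?_, ?_, ?_, ?_, ?_, ?_⟩ <;> first | trivial | ring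

lemma CA.orb {X : QF} {p : ℝ × ℝ} {ν : ℝ} {C : Set (ℝ × ℝ)} (h : CA X p ν C) :
    C ∈ Orb (tw X p ν) p ∨ C ∈ Orb ((tw X p ν).rot π) p := by
  obtain ⟨hC, hp, hb⟩ := h
  obtain ⟨γ, T, hc, rfl⟩ := minimalPeriod _ C hC
  rcases convexity' _ γ T hc with hW | hW
  · exact Or.inl ⟨γ, T, hc, around_of_inn (inn_of_bounded hc hW hp hb), rfl⟩
  · right
    rw [← T13b_range γ] at hp hb
    exact ⟨_, T, T13b_rev hc, around_of_inn (inn_of_bounded (T13b_rev hc) hW hp hb),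
      (T13b_range γ).symm⟩

lemma tw_zero {X : QF} {p : ℝ × ℝ} (hp : X.f p = 0) (ν : ℝ) : (tw X p ν).f p = 0 := by
  rw [tw_f, hp]
  simp

lemma tw_sign {X : QF} {p : ℝ × ℝ} (hp : X.f p = 0) {ν : ℝ} {C : Set (ℝ × ℝ)}
    (h : C ∈ Orb (tw X p ν) p) : 0 < (X.D p (1, 0)).2 := by
  obtain ⟨γ, T, hc, hA, rfl⟩ := h
  have h2 := linPos' _ γ T p hc (tw_zero hp ν) hA (1, 0) (by simp)
  rw [tw_D] at h2
  unfold wedge at h2
  simpa using h2

lemma choose_orient {X : QF} {p : ℝ × ℝ} (hp : X.f p = 0) : ∃ (Z : QF) (κ : ℝ), κ ≠ 0 ∧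
    ∀ ν C, CA X p ν C → C ∈ Orb (tw Z p (κ * ν)) p := by
  have hp' : (X.rot π).f p = 0 := by rw [QF.f_rot_pi, hp, neg_zero]
  have hD : ((X.rot π).D p (1, 0)).2 = -(X.D p (1, 0)).2 := by
    rw [QF.D_rot]
    unfold H709R2.rot
    simp
  by_cases h : 0 < (X.D p (1, 0)).2
  · refine ⟨X, 1, one_ne_zero, fun ν C hC => ?_⟩
    rw [one_mul]
    rcases hC.orb with h1 | h1
    · exact h1
    · exfalso
      rw [tw_rot] at h1
      have := tw_sign hp' h1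
      rw [hD] at this
      linarith
  · refine ⟨X.rot π, -1, by norm_num, fun ν C hC => ?_⟩
    rcases hC.orb with h1 | h1
    · exact absurd (tw_sign hp h1) h
    · rwa [tw_rot] at h1

/-- persistence in the family with parameter `ν (t)` -/
def PersT (X : QF) (p : ℝ × ℝ) (ν : ℝ → ℝ) (t₀ t : ℝ) (C : Set (ℝ × ℝ)) : Prop :=
  CA X p (ν t₀) C ∧ ∃ q : ℝ → ℝ × ℝ, ContinuousOn q (uIcc t₀ t) ∧ q t₀ ∈ C ∧
    ∀ s ∈ uIcc t₀ t, ∃ D, CA X p (ν s) D ∧ q s ∈ D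

theorem persT_le {X : QF} {p : ℝ × ℝ} (hp : X.f p = 0) {ν : ℝ → ℝ} {t₀ t b : ℝ}
    (hν : InjOn ν (uIcc t₀ t)) (hb : b ∈ uIcc t₀ t) (hb0 : b ≠ t₀) (hbt : b ≠ t) :
    {C | PersT X p ν t₀ t C}.encard ≤ {D | CA X p (ν b) D}.encard := by
  classical
  obtain ⟨Z, κ, hκ, hZ⟩ := choose_orient hp
  have l0 : t₀ ∈ uIcc t₀ t := left_mem_uIcc
  have h1 : ∀ C : Set (ℝ × ℝ), ∃ (D : ℝ → Set (ℝ × ℝ)) (q : ℝ → ℝ × ℝ), PersT X p ν t₀ t C →
      (∀ s ∈ uIcc t₀ t, CA X p (ν s) (D s)) ∧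
        GFam (fun s => tw Z p (κ * ν s)) p t₀ t D q ∧ D t₀ = C := by
    intro C
    by_cases h : PersT X p ν t₀ t C
    · obtain ⟨hC, q, hq, hq0, hD⟩ := h
      have h2 : ∀ s, ∃ D : Set (ℝ × ℝ), s ∈ uIcc t₀ t → CA X p (ν s) D ∧ q s ∈ D := by
        intro s
        by_cases hs : s ∈ uIcc t₀ t
        · obtain ⟨D, hD'⟩ := hD s hs
          exact ⟨D, fun _ => hD'⟩
        · exact ⟨∅, fun h => absurd h hs⟩
      choose D hD' using h2
      refine ⟨D, q, fun _ => ⟨fun s hs => (hD' s hs).1,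
        ⟨fun s hs => hZ _ _ (hD' s hs).1, fun s hs => (hD' s hs).2, hq⟩, ?_⟩⟩
      exact orb_eq (hZ _ _ (hD' t₀ l0).1) (hZ _ _ hC) (hD' t₀ l0).2 hq0
    · exact ⟨fun _ => ∅, fun _ => 0, fun h' => absurd h' h⟩
  choose D q hall using h1
  refine Set.encard_le_encard_of_injOn (f := fun C => D C b) ?_ ?_
  · intro C hC
    exact (hall C hC).1 b hb
  · intro C hC C' hC' hCC
    simp only at hCC
    obtain ⟨-, F, hD0⟩ := hall C hC
    obtain ⟨-, F', hD0'⟩ := hall C' hC'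
    by_contra hne
    refine gnonmerge ?_ F F' hb hb0 hbt (by rw [hD0, hD0']; exact hne) hCC
    intro a ha c hc hac C₁ hC₁ C₂ hC₂
    refine tw_disj ?_ hC₁ hC₂
    intro h
    exact hac (hν ha hc (mul_left_cancel₀ hκ h))

lemma shift_half (s : Finset (Set (ℝ × ℝ))) (B : Set (ℝ × ℝ) → Set ℝ)
    (hm : ∀ C ∈ s, MeasurableSet (B C)) (N : ℝ → ℝ≥0∞) {J : Set ℝ} (hJ : MeasurableSet J) (δ : ℝ)
    (hB : ∀ η, (∃ C ∈ s, η ∈ B C) → η + δ ∈ J ∧
      ∀ F : Finset (Set (ℝ × ℝ)), (∀ C ∈ F, C ∈ s ∧ η ∈ B C) → (F.card : ℝ≥0∞) ≤ N (η + δ)) :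
    ∑ C ∈ s, volume (B C) ≤ ∫⁻ b in J, N b := by
  classical
  have h2 : ∑ C ∈ s, volume (B C) =
      ∫⁻ η, ∑ C ∈ s, (B C).indicator (fun _ => (1:ℝ≥0∞)) η := by
    rw [lintegral_finsetSum']
    · refine Finset.sum_congr rfl fun C hC => ?_
      rw [lintegral_indicator (hm C hC), lintegral_const, one_mul, Measure.restrict_apply_univ]
    · intro C hC
      exact (measurable_const.indicator (hm C hC)).aemeasurable
  have h3 : ∀ η : ℝ, ∑ C ∈ s, (B C).indicator (fun _ => (1:ℝ≥0∞)) η ≤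
      J.indicator N (η + δ) := by
    intro η
    have e1 : ∑ C ∈ s, (B C).indicator (fun _ => (1:ℝ≥0∞)) η =
        ((s.filter fun C => η ∈ B C).card : ℝ≥0∞) := by
      rw [Finset.card_filter]
      push_cast
      refine Finset.sum_congr rfl fun C _ => ?_
      by_cases h : η ∈ B C
      · rw [indicator_of_mem h, if_pos h]
      · rw [indicator_of_notMem h, if_neg h]
    rw [e1]
    rcases (s.filter fun C => η ∈ B C).eq_empty_or_nonempty with h0 | ⟨C₀, hC₀⟩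
    · rw [h0]
      simp
    · rw [Finset.mem_filter] at hC₀
      obtain ⟨h4, h5⟩ := hB η ⟨C₀, hC₀.1, hC₀.2⟩
      rw [indicator_of_mem h4]
      exact h5 _ fun C hC => Finset.mem_filter.1 hC
  rw [h2]
  calc ∫⁻ η, ∑ C ∈ s, (B C).indicator (fun _ => (1:ℝ≥0∞)) η
      ≤ ∫⁻ η, J.indicator N (η + δ) := lintegral_mono h3
    _ = ∫⁻ b, J.indicator N b := lintegral_add_right_eq_self _ δ
    _ = ∫⁻ b in J, N b := lintegral_indicator hJ _

lemma PersT.mono {X : QF} {p : ℝ × ℝ} {ν : ℝ → ℝ} {t₀ t t' : ℝ} {C : Set (ℝ × ℝ)}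
    (h : PersT X p ν t₀ t C) (ht : t' ∈ uIcc t₀ t) : PersT X p ν t₀ t' C := by
  obtain ⟨hC, q, hq, hq0, hD⟩ := h
  have hsub : uIcc t₀ t' ⊆ uIcc t₀ t := uIcc_subset_uIcc left_mem_uIcc ht
  exact ⟨hC, q, hq.mono hsub, hq0, fun a ha => hD a (hsub ha)⟩

theorem totalT {X : QF} {p : ℝ × ℝ} (hp : X.f p = 0) {ν : ℝ → ℝ}
    (hν : InjOn ν (Ioo (-1) 1)) {t₀ : ℝ} (ht₀ : t₀ ∈ Ioo (-1:ℝ) 1) (N : ℝ → ℝ≥0∞)
    (hN : ∀ t ∈ Ioo (-1:ℝ) 1, (({D | CA X p (ν t) D}.encard : ℕ∞) : ℝ≥0∞) ≤ N t)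
    (s : Finset (Set (ℝ × ℝ))) :
    ∑ C ∈ s, volume {t | t ∈ Ioo (-1:ℝ) 1 ∧ PersT X p ν t₀ t C} ≤ ∫⁻ t in Ioo (-1) 1, N t := by
  classical
  have hsubI : ∀ t ∈ Ioo (-1:ℝ) 1, uIcc t₀ t ⊆ Ioo (-1:ℝ) 1 := by
    intro t ht y hy
    rw [mem_uIcc] at hy
    rcases hy with hy | hy
    · exact ⟨ht₀.1.trans_le hy.1, hy.2.trans_lt ht.2⟩
    · exact ⟨ht.1.trans_le hy.1, hy.2.trans_lt ht₀.2⟩
  have hcount : ∀ t ∈ Ioo (-1:ℝ) 1, ∀ b ∈ uIcc t₀ t, b ≠ t₀ → b ≠ t →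
      ∀ F : Finset (Set (ℝ × ℝ)), (∀ C ∈ F, PersT X p ν t₀ t C) → (F.card : ℝ≥0∞) ≤ N b := by
    intro t ht b hb hb0 hbt F hF
    have h1 := persT_le hp (hν.mono (hsubI t ht)) hb hb0 hbt
    have h2 : (F.card : ℕ∞) ≤ {C | PersT X p ν t₀ t C}.encard := by
      rw [← Set.encard_coe_eq_coe_finsetCard]
      exact Set.encard_le_encard fun C hC => hF C hC
    have h3 := (ENat.toENNReal_le.2 (h2.trans h1)).trans (hN b (hsubI t ht hb))
    simpa using h3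
  -- measurability of the two halves
  have m1 : ∀ (x : ℝ) (C : Set (ℝ × ℝ)), t₀ ≤ x →
      MeasurableSet {t | x < t ∧ t ∈ Ioo (-1:ℝ) 1 ∧ PersT X p ν t₀ t C} := by
    intro x C hx
    have : OrdConnected {t | x < t ∧ t ∈ Ioo (-1:ℝ) 1 ∧ PersT X p ν t₀ t C} := by
      refine ⟨?_⟩
      rintro u ⟨hu, hu1, -⟩ v ⟨hv, hv1, hv2⟩ w ⟨hw1, hw2⟩
      refine ⟨hu.trans_le hw1, ⟨hu1.1.trans_le hw1, hw2.trans_lt hv1.2⟩, hv2.mono ?_⟩
      rw [mem_uIcc]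
      left
      constructor <;> linarith
    exact this.measurableSet
  have m2 : ∀ (x : ℝ) (C : Set (ℝ × ℝ)), x ≤ t₀ →
      MeasurableSet {t | t < x ∧ t ∈ Ioo (-1:ℝ) 1 ∧ PersT X p ν t₀ t C} := by
    intro x C hx
    have : OrdConnected {t | t < x ∧ t ∈ Ioo (-1:ℝ) 1 ∧ PersT X p ν t₀ t C} := by
      refine ⟨?_⟩
      rintro u ⟨hu, hu1, hu2⟩ v ⟨hv, hv1, -⟩ w ⟨hw1, hw2⟩
      refine ⟨hw2.trans_lt hv, ⟨hu1.1.trans_le hw1, hw2.trans_lt hv1.2⟩, hu2.mono ?_⟩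
      rw [mem_uIcc]
      right
      constructor <;> linarith
    exact this.measurableSet
  have key : ∀ ε : ℝ, 0 < ε → ∑ C ∈ s, volume {t | t ∈ Ioo (-1:ℝ) 1 ∧ PersT X p ν t₀ t C} ≤
      (∫⁻ t in Ioo (-1) 1, N t) + s.card * ENNReal.ofReal (2 * ε) := by
    intro ε hε
    have h1 : ∀ C ∈ s, volume {t | t ∈ Ioo (-1:ℝ) 1 ∧ PersT X p ν t₀ t C} ≤
        (volume {t | t₀ + ε < t ∧ t ∈ Ioo (-1:ℝ) 1 ∧ PersT X p ν t₀ t C} +
          volume {t | t < t₀ - ε ∧ t ∈ Ioo (-1:ℝ) 1 ∧ PersT X p ν t₀ t C}) +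
          ENNReal.ofReal (2 * ε) := by
      intro C _
      calc volume {t | t ∈ Ioo (-1:ℝ) 1 ∧ PersT X p ν t₀ t C} ≤
            volume (({t | t₀ + ε < t ∧ t ∈ Ioo (-1:ℝ) 1 ∧ PersT X p ν t₀ t C} ∪
              {t | t < t₀ - ε ∧ t ∈ Ioo (-1:ℝ) 1 ∧ PersT X p ν t₀ t C}) ∪
              Icc (t₀ - ε) (t₀ + ε)) := by
            refine measure_mono fun t ht => ?_
            by_cases h2 : t₀ + ε < t
            · exact Or.inl (Or.inl ⟨h2, ht⟩)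
            · by_cases h3 : t < t₀ - ε
              · exact Or.inl (Or.inr ⟨h3, ht⟩)
              · exact Or.inr ⟨not_lt.1 h3, not_lt.1 h2⟩
        _ ≤ volume ({t | t₀ + ε < t ∧ t ∈ Ioo (-1:ℝ) 1 ∧ PersT X p ν t₀ t C} ∪
              {t | t < t₀ - ε ∧ t ∈ Ioo (-1:ℝ) 1 ∧ PersT X p ν t₀ t C}) +
              volume (Icc (t₀ - ε) (t₀ + ε)) := measure_union_le _ _
        _ ≤ _ := by
            rw [Real.volume_Icc, show t₀ + ε - (t₀ - ε) = 2 * ε by ring]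
            gcongr
            exact measure_union_le _ _
    refine (Finset.sum_le_sum h1).trans ?_
    rw [Finset.sum_add_distrib, Finset.sum_const, nsmul_eq_mul, Finset.sum_add_distrib]
    gcongr
    have a1 : ∑ C ∈ s, volume {t | t₀ + ε < t ∧ t ∈ Ioo (-1:ℝ) 1 ∧ PersT X p ν t₀ t C} ≤
        ∫⁻ t in Ioo t₀ 1, N t := by
      refine shift_half s _ (fun C _ => m1 _ C (by linarith)) N measurableSet_Ioo (-ε) ?_
      rintro η ⟨C₀, hC₀, h2, h3, h4⟩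
      refine ⟨⟨by linarith, by linarith [h3.2]⟩, fun F hF => ?_⟩
      refine hcount η h3 _ ?_ (by linarith : η + -ε > t₀).ne' (by linarith : η + -ε < η).ne F
        fun C hC => (hF C hC).2.2.2
      rw [mem_uIcc]
      left
      constructor <;> linarith
    have a2 : ∑ C ∈ s, volume {t | t < t₀ - ε ∧ t ∈ Ioo (-1:ℝ) 1 ∧ PersT X p ν t₀ t C} ≤
        ∫⁻ t in Ioo (-1) t₀, N t := by
      refine shift_half s _ (fun C _ => m2 _ C (by linarith)) N measurableSet_Ioo ε ?_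
      rintro η ⟨C₀, hC₀, h2, h3, h4⟩
      refine ⟨⟨by linarith [h3.1], by linarith⟩, fun F hF => ?_⟩
      refine hcount η h3 _ ?_ (by linarith : η + ε < t₀).ne (by linarith : η + ε > η).ne' F
        fun C hC => (hF C hC).2.2.2
      rw [mem_uIcc]
      right
      constructor <;> linarith
    calc _ ≤ (∫⁻ t in Ioo t₀ 1, N t) + ∫⁻ t in Ioo (-1) t₀, N t := add_le_add a1 a2
      _ = ∫⁻ t in Ioo t₀ 1 ∪ Ioo (-1) t₀, N t := by
          rw [lintegral_union measurableSet_Ioo]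
          rw [Set.disjoint_left]
          rintro x ⟨hx1, -⟩ ⟨-, hx2⟩
          linarith
      _ ≤ ∫⁻ t in Ioo (-1) 1, N t := by
          refine lintegral_mono_set ?_
          rintro x (hx | hx)
          · exact ⟨ht₀.1.trans hx.1, hx.2⟩
          · exact ⟨hx.1, hx.2.trans ht₀.2⟩
  refine ENNReal.le_of_forall_pos_le_add fun δ hδ _ => ?_
  by_cases hs : s.card = 0
  · have := key 1 one_pos
    rw [hs] at this
    simp only [Nat.cast_zero, zero_mul, add_zero] at this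
    exact this.trans le_self_add
  · have hn : (0:ℝ) < s.card := by exact_mod_cast Nat.pos_of_ne_zero hs
    have h1 := key (δ / s.card / 2) (by positivity)
    refine h1.trans ?_
    gcongr
    rw [← ENNReal.ofReal_natCast, ← ENNReal.ofReal_mul hn.le,
      show (s.card : ℝ) * (2 * ((δ : ℝ) / s.card / 2)) = δ by field_simp]
    simp

end Pool.Agent.H709P
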